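import Pool.Agent.Helper85.KV.N2
import Pool.Agent.Helper25.K4.Asm

set_option autoImplicit false

/-!
The family (N): expectation of the integer integrand.
-/

namespace KC

open KF Finset

namespace NTab

variable (N : NTab)

/-- The total weight of the terms, as a function of the mask. -/
noncomputable def HM (T : Tab) (m : Nat) : ℤ := (N.mt (T.ty (rt m)) : ℤ)

variable {T : Tab} {gens : Nat → List (List Nat)} {cert : List (Nat × List (List Nat))}

theorem HM_inv (h : T.Good gens cert) :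
    ∀ W ∈ ([[0], [1], [2], [3], [5]] : List (List Nat)), ∀ m, Adm m →
      N.HM T (awl W m) = N.HM T m := by
  intro W hW m hm
  have key : ∀ j < 4, N.HM T (tau j m) = N.HM T m := by
    intro j hj
    have h3 := h.c3
    simp only [Tab.ck3, List.all_eq_true, List.mem_range] at h3
    have h3' := h3 (rt m) (rt_lt m)
    rw [vio0_rt hm, Bool.false_or, List.any_eq_true] at h3'
    obtain ⟨c, hc, hcr⟩ := h3'
    have hcr := Nat.eq_of_beq_eq_true hcr
    have h2 := h.c2
    simp only [Tab.ck2, List.all_eq_true, Bool.and_eq_true, List.mem_range] at h2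
    obtain ⟨-, h5⟩ := h2 c hc
    obtain ⟨h6, -⟩ := h5 j hj
    rw [← hcr] at h6
    have h6 := Nat.eq_of_beq_eq_true h6
    unfold HM
    rw [rt_tau j m hj, h6]
  simp only [List.mem_cons, List.not_mem_nil, or_false] at hW
  rcases hW with rfl | rfl | rfl | rfl | rfl
  · exact key 0 (by norm_num)
  · exact key 1 (by norm_num)
  · exact key 2 (by norm_num)
  · exact key 3 (by norm_num)
  · unfold HM
    change (N.mt (T.ty (rt (tau 5 m))) : ℤ) = _
    rw [rt_tau5]

/-- The weight of a term for labelled roots. -/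
noncomputable def muR (T : Tab) (k r : Nat) : ℝ :=
  if k < N.kn (T.ty r) then (N.mu (T.ty r) k : ℝ) else 0

/-- The root index of a term for labelled roots. -/
noncomputable def kaR (T : Tab) (k r l : Nat) : Fin 5 :=
  ⟨vn (T.wr r) (N.ka (T.ty r) (T.fi (T.ty r) (al5 (T.wr r) l)) k) % 5, Nat.mod_lt _ (by norm_num)⟩

theorem GN_eq (h : T.Good gens cert) {OFF : Nat} (hN : N.GoodN T OFF) (q : ℝ) {m : Nat}
    (hm : m < 2 ^ 35) : ((N.GN T m : ℤ) : ℝ) =
      ∑ k ∈ range 64, N.A * gN (N.muR T k) (N.kaR T k) q m - (N.A * q - N.B) * (N.HM T m : ℤ) := by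
  have ht := h.tyr (rt_lt m)
  have hw := h.w4r (rt_lt m)
  have hM := hN.m _ ht
  simp only [ckM, Bool.and_eq_true, Nat.ble_eq] at hM
  have hk64 : N.kn (T.ty (rt m)) ≤ 64 := hM.1.1
  have hHM : ((N.HM T m : ℤ) : ℝ) = ∑ k ∈ range (N.kn (T.ty (rt m))), (N.mu (T.ty (rt m)) k : ℝ) := by
    unfold HM mt
    rw [list_sum_range]
    push_cast
    rfl
  have hs : ∑ k ∈ range 64, N.A * gN (N.muR T k) (N.kaR T k) q m =
      ∑ k ∈ range (N.kn (T.ty (rt m))), N.A * gN (N.muR T k) (N.kaR T k) q m := by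
    symm
    refine sum_subset (range_subset_range.2 hk64) fun k _ hk2 => ?_
    unfold gN muR
    change N.A * ((if k < N.kn (T.ty (rt m)) then _ else (0 : ℝ)) * _) = 0
    rw [if_neg (by simpa using hk2)]
    ring
  rw [hs, hHM, mul_sum, ← sum_sub_distrib]
  unfold GN Tab.lift HN
  rw [list_sum_range, Int.cast_sum]
  refine sum_congr rfl fun k hk => ?_
  have hk := mem_range.1 hk
  unfold term gN
  change _ = N.A * ((if k < N.kn (T.ty (rt m)) then (N.mu (T.ty (rt m)) k : ℝ) else (0 : ℝ)) *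
    (q - b2r (decide (N.kaR T k (rt m) (lk5 m) = N.kaR T k (rt m) (lk6 m)) &&
      m.testBit (30 + (N.kaR T k (rt m) (lk5 m)).val)))) - _
  rw [if_pos hk, lk5_awl _ _ hw, lk6_awl _ _ hw]
  set a := N.ka (T.ty (rt m)) (T.fi (T.ty (rt m)) (al5 (T.wr (rt m)) (lk5 m))) k with ha
  set b := N.ka (T.ty (rt m)) (T.fi (T.ty (rt m)) (al5 (T.wr (rt m)) (lk6 m))) k with hb
  have la : a < 5 := N.ka_lt _ _ _
  have lb : b < 5 := N.ka_lt _ _ _
  have va := vn_lt hw la
  have vb := vn_lt hw lb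
  have ea : (N.kaR T k (rt m) (lk5 m)).val = vn (T.wr (rt m)) a := Nat.mod_eq_of_lt va
  have eb : (N.kaR T k (rt m) (lk6 m)).val = vn (T.wr (rt m)) b := Nat.mod_eq_of_lt vb
  have e1 : (N.kaR T k (rt m) (lk5 m) = N.kaR T k (rt m) (lk6 m)) ↔ a = b := by
    rw [Fin.ext_iff, ea, eb]
    exact ⟨fun e => vn_inj hw la lb e, fun e => by rw [e]⟩
  rw [ea, bit_awl hw hm la]
  have e2 : b2r (decide (N.kaR T k (rt m) (lk5 m) = N.kaR T k (rt m) (lk6 m)) &&
      m.testBit (30 + vn (T.wr (rt m)) a)) =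
      if (a = b ∧ m.testBit (30 + vn (T.wr (rt m)) a) = true) then 1 else 0 := by
    unfold b2r
    by_cases c1 : a = b
    · have : N.kaR T k (rt m) (lk5 m) = N.kaR T k (rt m) (lk6 m) := e1.2 c1
      simp [c1, this]
    · have : ¬ N.kaR T k (rt m) (lk5 m) = N.kaR T k (rt m) (lk6 m) := fun e => c1 (e1.1 e)
      simp [c1, this]
  rw [e2]
  push_cast
  split_ifs <;> ring

theorem HM_eq (h : T.Good gens cert) {OFF : Nat} (hN : N.GoodN T OFF) (m : Nat) :
    ((N.HM T m : ℤ) : ℝ) = ∑ k ∈ range 64, N.muR T k (rt m) := by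
  have htt := h.tyr (rt_lt m)
  have hM := hN.m _ htt
  simp only [ckM, Bool.and_eq_true, Nat.ble_eq] at hM
  have hk64 : N.kn (T.ty (rt m)) ≤ 64 := hM.1.1
  have : ∑ k ∈ range 64, N.muR T k (rt m) =
      ∑ k ∈ range (N.kn (T.ty (rt m))), N.muR T k (rt m) := by
    symm
    refine sum_subset (range_subset_range.2 hk64) fun k _ hk2 => ?_
    unfold muR
    exact if_neg (by simpa using hk2)
  rw [this]
  unfold HM mt
  rw [list_sum_range, Int.cast_natCast, Nat.cast_sum]
  refine sum_congr rfl fun k hk => ?_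
  unfold muR
  exact (if_pos (mem_range.1 hk)).symm

section
variable {V : Type} [Fintype V]

/-- (N) for the integer tables. -/
theorem em_GN (h : T.Good gens cert) {OFF : Nat} (hN : N.GoodN T OFF)
    {E : V → V → V → Bool} (hE : K4m E) {w : V → ℝ} (hw : Wt w) {t : ℝ} (ht : 0 < t)
    (ht1 : t ≤ 1) :
    -(N.A * ((L - dens E w) / (3 * t) + 2 * t)) * Em E w (N.HM T) -
      (N.A * L - N.B) * Em E w (N.HM T) ≤ Em E w (N.GN T) := by
  have e1 : Em E w (N.GN T) = ∑ k ∈ range 64, N.A * Ev 7 w (fun φ =>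
      gN (N.muR T k) (N.kaR T k) L (KC.msk E φ)) - (N.A * L - N.B) * Em E w (N.HM T) := by
    unfold Em
    rw [Ev_congr 7 w fun φ => N.GN_eq h hN L (msk_lt E φ), Ev_sub, Ev_mul, Ev_sum]
    congr 1
    exact sum_congr rfl fun k _ => Ev_mul 7 w _ _
  have e2 : Em E w (N.HM T) = ∑ k ∈ range 64, Ev 7 w (fun φ =>
      N.muR T k (KC.msk E φ % 2 ^ 10)) := by
    unfold Em
    rw [← Ev_sum]
    exact Ev_congr 7 w fun φ => N.HM_eq h hN _
  rw [e1]
  have e3 : -(N.A * ((L - dens E w) / (3 * t) + 2 * t)) * Em E w (N.HM T) ≤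
      ∑ k ∈ range 64, N.A * Ev 7 w (fun φ => gN (N.muR T k) (N.kaR T k) L (KC.msk E φ)) := by
    rw [e2, mul_sum]
    refine sum_le_sum fun k _ => ?_
    have hmu : ∀ r, 0 ≤ N.muR T k r := by
      intro r
      unfold muR
      split_ifs
      · exact Nat.cast_nonneg _
      · exact le_rfl
    have := kcN hE hw hmu (N.kaR T k) ht ht1
    have h2 := mul_le_mul_of_nonneg_left this (Nat.cast_nonneg (α := ℝ) N.A)
    linarith
  linarith

/-- Form with an arbitrarily small error. -/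
theorem em_GN' (h : T.Good gens cert) {OFF : Nat} (hN : N.GoodN T OFF) :
    ∀ η : ℝ, 0 < η → ∃ θ : ℝ, 0 < θ ∧ ∀ (n : ℕ) (E : Fin n → Fin n → Fin n → Bool)
      (w : Fin n → ℝ), Opt E w → L - θ < dens E w →
      -(N.A * L - N.B) * Em E w (N.HM T) - η ≤ Em E w (N.GN T) := by
  intro η hη
  -- a bound for the total weight
  set M : ℝ := N.A * (OFF + 1) + 1 with hM
  have hM0 : 0 < M := by positivity
  set t : ℝ := min 1 (η / (4 * M)) with ht
  have ht0 : 0 < t := lt_min one_pos (by positivity)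
  have ht1 : t ≤ 1 := min_le_left _ _
  have ht2 : t ≤ η / (4 * M) := min_le_right _ _
  refine ⟨3 * t * (η / (2 * M)), by positivity, fun n E w ho hd => ?_⟩
  have h1 := N.em_GN h hN ho.free ho.wt ht0 ht1
  have hb0 : 0 ≤ Em E w (N.HM T) := Ev_nonneg 7 w ho.wt.nn fun φ => by
    unfold HM
    exact_mod_cast Nat.zero_le _
  have hb1 : N.A * Em E w (N.HM T) ≤ M := by
    have : Em E w (fun m => (N.A : ℤ) * N.HM T m) ≤ Em E w (fun _ => ((OFF : ℕ) : ℤ)) := by
      refine Ev_mono 7 w ho.wt.nn fun φ => ?_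
      have htt := h.tyr (rt_lt (KC.msk E φ))
      have hMM := hN.m _ htt
      simp only [ckM, Bool.and_eq_true, Nat.ble_eq] at hMM
      have h3 : N.A * N.mt (T.ty (rt (KC.msk E φ))) ≤ OFF := hMM.2
      change (((N.A : ℤ) * N.HM T (KC.msk E φ) : ℤ) : ℝ) ≤ (((OFF : ℕ) : ℤ) : ℝ)
      unfold HM
      exact_mod_cast h3
    rw [Em_smul, Em_const E ho.wt] at this
    push_cast at this
    have hA : (0 : ℝ) ≤ N.A := Nat.cast_nonneg _
    have hO : (0 : ℝ) ≤ OFF := Nat.cast_nonneg _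
    rcases Nat.eq_zero_or_pos N.A with h0 | h0
    · rw [hM, h0]; simp
    · have h5 : (1 : ℝ) ≤ N.A := by exact_mod_cast h0
      have : (OFF : ℝ) ≤ N.A * (OFF + 1) + 1 := by nlinarith
      linarith
  have h2 : (L - dens E w) / (3 * t) ≤ η / (2 * M) := by
    rw [div_le_iff₀ (by positivity)]
    linarith
  have h3 : 2 * t ≤ η / (2 * M) := by
    have : η / (2 * M) = 2 * (η / (4 * M)) := by ring
    rw [this]
    linarith
  have hd2 : 0 ≤ L - dens E w := by linarith [dens_le_L ho.free ho.wt]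
  have h4 : (L - dens E w) / (3 * t) + 2 * t ≤ η / M := by
    have : η / M = 2 * (η / (2 * M)) := by field_simp
    linarith
  have h5 : N.A * ((L - dens E w) / (3 * t) + 2 * t) * Em E w (N.HM T) ≤ η := by
    have h6 : N.A * ((L - dens E w) / (3 * t) + 2 * t) * Em E w (N.HM T) =
        (N.A * Em E w (N.HM T)) * ((L - dens E w) / (3 * t) + 2 * t) := by ring
    rw [h6]
    have h7 : 0 ≤ (L - dens E w) / (3 * t) + 2 * t := by positivity
    calc (N.A * Em E w (N.HM T)) * ((L - dens E w) / (3 * t) + 2 * t) ≤ M * (η / M) :=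
          mul_le_mul hb1 h4 h7 hM0.le
      _ = η := by field_simp
  linarith

end

end NTab

end KC
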