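import Pool.Agent.Helper85.KV.V1
import Pool.Agent.Helper91.KF.F5

set_option autoImplicit false

/-!
Table form of the multi-swap inequality (N) with five roots.
-/

namespace KF

open Finset

/-- Integrand of (N): `κ` sends the link of a vertex on the five roots to the root it imitates. -/
def gN (μ : ℕ → ℝ) (κ : ℕ → ℕ → Fin 5) (p : ℝ) (m : ℕ) : ℝ :=
  μ (m % 2 ^ 10) * (p - b2r (decide (κ (m % 2 ^ 10) (m / 2 ^ 10 % 2 ^ 10) =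
    κ (m % 2 ^ 10) (m / 2 ^ 20 % 2 ^ 10)) &&
      m.testBit (30 + (κ (m % 2 ^ 10) (m / 2 ^ 10 % 2 ^ 10)).val)))

theorem gN_split (μ : ℕ → ℝ) (κ : ℕ → ℕ → Fin 5) (p q : ℝ) (m : ℕ) :
    gN μ κ q m = gN μ κ p m + (q - p) * μ (m % 2 ^ 10) := by
  unfold gN; ring

theorem bit30k {V : Type} (E : V → V → V → Bool) (φ : Fin 7 → V) (k : Fin 5) :
    (msk E φ).testBit (30 + k.val) = E (φ (Fin.castAdd 2 k)) (φ 5) (φ 6) := by
  rw [msk_bit E φ (30 + k.val) (by omega)]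
  fin_cases k <;> rfl

section
variable {V : Type} [Fintype V]

theorem evN {E : V → V → V → Bool} (hE : K4m E) {w : V → ℝ} (hw : Wt w)
    {μ : ℕ → ℝ} (hμ : ∀ r, 0 ≤ μ r) (κ : ℕ → ℕ → Fin 5) {t : ℝ} (ht : 0 < t) (ht1 : t ≤ 1) :
    -((L - dens E w) / (3 * t) + 2 * t) * Ev 7 w (fun φ => μ (msk E φ % 2 ^ 10)) ≤
      Ev 7 w (fun φ => gN μ κ L (msk E φ)) := by
  rw [← Ev_mul, Ev_append 5 2 w, Ev_append 5 2 w]
  refine Ev_mono 5 w hw.nn fun ρ => ?_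
  have h := ineqN hE hw (KF85.adm_swap hE ρ (fun x => κ (m5 E ρ) (l5 E ρ x))) ht ht1
  have h0 : -((L - dens E w) / (3 * t) + 2 * t) ≤ L - Ev 2 w (fun ψ =>
      b2r (decide (κ (m5 E ρ) (l5 E ρ (ψ 0)) = κ (m5 E ρ) (l5 E ρ (ψ 1))) &&
        E (ρ (κ (m5 E ρ) (l5 E ρ (ψ 0)))) (ψ 0) (ψ 1))) := by linarith
  have h2 := mul_le_mul_of_nonneg_left h0 (hμ (m5 E ρ))
  have e1 : Ev 2 w (fun ψ => -((L - dens E w) / (3 * t) + 2 * t) *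
      μ (msk E (Fin.append ρ ψ : Fin 7 → V) % 2 ^ 10)) =
      μ (m5 E ρ) * -((L - dens E w) / (3 * t) + 2 * t) := by
    rw [← Ev_const 2 w hw.one (μ (m5 E ρ) * -((L - dens E w) / (3 * t) + 2 * t))]
    refine Ev_congr 2 w fun ψ => ?_
    rw [msk_m5, app5]
    ring
  have e2 : Ev 2 w (fun ψ => gN μ κ L (msk E (Fin.append ρ ψ : Fin 7 → V))) =
      μ (m5 E ρ) * (L - Ev 2 w (fun ψ =>
      b2r (decide (κ (m5 E ρ) (l5 E ρ (ψ 0)) = κ (m5 E ρ) (l5 E ρ (ψ 1))) &&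
        E (ρ (κ (m5 E ρ) (l5 E ρ (ψ 0)))) (ψ 0) (ψ 1)))) := by
    have h4 : ∀ ψ : Fin 2 → V, gN μ κ L (msk E (Fin.append ρ ψ : Fin 7 → V)) =
        μ (m5 E ρ) * (L - b2r (decide (κ (m5 E ρ) (l5 E ρ (ψ 0)) =
          κ (m5 E ρ) (l5 E ρ (ψ 1))) &&
          E (ρ (κ (m5 E ρ) (l5 E ρ (ψ 0)))) (ψ 0) (ψ 1))) := by
      intro ψ
      unfold gN
      rw [bit30k, msk_m5, msk_l5a, msk_l5b, app5, Fin.append_left,
        show (Fin.append ρ ψ : Fin 7 → V) 5 = ψ 0 from rfl,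
        show (Fin.append ρ ψ : Fin 7 → V) 6 = ψ 1 from rfl]
    rw [Ev_congr 2 w h4, Ev_mul, Ev_sub, Ev_const 2 w hw.one]
  rw [e1, e2]
  exact h2

theorem kcN {E : V → V → V → Bool} (hE : K4m E) {w : V → ℝ} (hw : Wt w)
    {μ : ℕ → ℝ} (hμ : ∀ r, 0 ≤ μ r) (κ : ℕ → ℕ → Fin 5) {t : ℝ} (ht : 0 < t) (ht1 : t ≤ 1) :
    -((L - dens E w) / (3 * t) + 2 * t) * Ev 7 w (fun φ => μ (KC.msk E φ % 2 ^ 10)) ≤
      Ev 7 w (fun φ => gN μ κ L (KC.msk E φ)) := by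
  simpa only [msk_eq] using evN hE hw hμ κ ht ht1

end

end KF
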