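import Pool.Agent.Helper91.KF.F9

set_option autoImplicit false

/-!
Second-order optimality with atoms at six roots: the matrix `d - codegree` is positive
semidefinite.
-/

namespace KF

open Finset

section
variable {V : Type} [Fintype V]

theorem Ev_one (w : V → ℝ) (g : V → ℝ) :
    Ev 1 w (fun φ => g (φ 0)) = ∑ x, w x * g x := by
  unfold Ev
  rw [← Equiv.sum_comp (Equiv.funUnique (Fin 1) V).symm]
  refine Finset.sum_congr rfl fun x _ => ?_
  simp

/-- The codegree of two vertices. -/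
noncomputable def cod (E : V → V → V → Bool) (w : V → ℝ) (x y : V) : ℝ :=
  ∑ z, w z * b2r (E x y z)

theorem tri_atoms (E : V → V → V → Bool) (w : V → ℝ) {n : ℕ} (ρ : Fin n → V) (g : Fin n → ℝ)
    [DecidableEq V] :
    tri E (fun v => ∑ a, g a * pt (ρ a) v) (fun v => ∑ a, g a * pt (ρ a) v) w =
      ∑ a, ∑ b, g a * g b * cod E w (ρ a) (ρ b) := by
  unfold tri cod
  have e1 : ∀ x y z : V, (∑ a, g a * pt (ρ a) x) * (∑ a, g a * pt (ρ a) y) * w z *
      b2r (E x y z) = ∑ a, ∑ b, g a * g b * (pt (ρ a) x * (pt (ρ b) y * (w z * b2r (E x y z)))) := by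
    intro x y z
    rw [Finset.sum_mul_sum, Finset.sum_mul, Finset.sum_mul]
    refine Finset.sum_congr rfl fun a _ => ?_
    rw [Finset.sum_mul, Finset.sum_mul]
    exact Finset.sum_congr rfl fun b _ => by ring
  have e2 : ∀ (v : V) (F : V → ℝ), ∑ x, pt v x * F x = F v := by
    intro v F
    unfold pt
    simp
  calc ∑ x, ∑ y, ∑ z, (∑ a, g a * pt (ρ a) x) * (∑ a, g a * pt (ρ a) y) * w z * b2r (E x y z)
      = ∑ x, ∑ y, ∑ z, ∑ a, ∑ b, g a * g b *
        (pt (ρ a) x * (pt (ρ b) y * (w z * b2r (E x y z)))) := by simp only [e1]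
    _ = ∑ a, ∑ b, g a * g b * ∑ x, pt (ρ a) x * ∑ y, pt (ρ b) y * ∑ z, w z * b2r (E x y z) := by
        have : ∀ x y : V, ∑ z, ∑ a, ∑ b, g a * g b *
            (pt (ρ a) x * (pt (ρ b) y * (w z * b2r (E x y z)))) =
            ∑ a, ∑ b, g a * g b * (pt (ρ a) x * (pt (ρ b) y * ∑ z, w z * b2r (E x y z))) := by
          intro x y
          rw [Finset.sum_comm]
          refine Finset.sum_congr rfl fun a _ => ?_
          rw [Finset.sum_comm]
          refine Finset.sum_congr rfl fun b _ => ?_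
          simp only [Finset.mul_sum]
        simp only [this]
        have : ∀ x : V, ∑ y, ∑ a, ∑ b, g a * g b *
            (pt (ρ a) x * (pt (ρ b) y * ∑ z, w z * b2r (E x y z))) =
            ∑ a, ∑ b, g a * g b * (pt (ρ a) x * ∑ y, pt (ρ b) y * ∑ z, w z * b2r (E x y z)) := by
          intro x
          rw [Finset.sum_comm]
          refine Finset.sum_congr rfl fun a _ => ?_
          rw [Finset.sum_comm]
          refine Finset.sum_congr rfl fun b _ => ?_
          rw [Finset.mul_sum, Finset.mul_sum]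
        simp only [this]
        rw [Finset.sum_comm]
        refine Finset.sum_congr rfl fun a _ => ?_
        rw [Finset.sum_comm]
        refine Finset.sum_congr rfl fun b _ => ?_
        rw [Finset.mul_sum]
    _ = _ := by
        refine Finset.sum_congr rfl fun a _ => Finset.sum_congr rfl fun b _ => ?_
        rw [e2, e2]

/-- (HA) for fixed roots. -/
theorem ineqHA {E : V → V → V → Bool} {w : V → ℝ} (ho : Opt E w) {n : ℕ} (ρ : Fin n → V)
    (g : Fin n → ℝ) :
    0 ≤ ∑ a, ∑ b, g a * g b * (dens E w - cod E w (ρ a) (ρ b)) := by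
  classical
  have h1 := second_var ho (fun v => ∑ a, g a * pt (ρ a) v)
  rw [tri_atoms] at h1
  have h2 : ∑ v, ∑ a, g a * pt (ρ a) v = ∑ a, g a := by
    rw [Finset.sum_comm]
    refine Finset.sum_congr rfl fun a _ => ?_
    rw [← Finset.mul_sum, sum_pt, mul_one]
  rw [h2] at h1
  have h3 : ∑ a, ∑ b, g a * g b * (dens E w - cod E w (ρ a) (ρ b)) =
      dens E w * (∑ a, g a) ^ 2 - ∑ a, ∑ b, g a * g b * cod E w (ρ a) (ρ b) := by
    rw [sq, Finset.sum_mul_sum, Finset.mul_sum, ← Finset.sum_sub_distrib]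
    refine Finset.sum_congr rfl fun a _ => ?_
    rw [Finset.mul_sum, ← Finset.sum_sub_distrib]
    exact Finset.sum_congr rfl fun b _ => by ring
  rw [h3]
  linarith

end

/-- Integrand of (HA6): roots `0, ..., 5`, free vertex `6`. -/
def gA6 (C : ℕ → ℕ → ℕ → ℕ → ℝ) (p : ℝ) (m : ℕ) : ℝ :=
  ∑ a ∈ range 6, ∑ b ∈ range 6, C (m % 2 ^ 10) (m / 2 ^ 10 % 2 ^ 10) a b *
    (p - b2r (m.testBit (KC.ixs a b 6)))

section
variable {V : Type} [Fintype V]

/-- (HA6) in table form: positive semidefinite matrices for all types of the six roots. -/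
theorem kcA6 {E : V → V → V → Bool} {w : V → ℝ} (ho : Opt E w)
    {C : ℕ → ℕ → ℕ → ℕ → ℝ} (hC : ∀ r l, Psd 6 (C r l))
    (sC : ∀ r l a b, C r l a b = C r l b a) :
    0 ≤ Ev 7 w (fun φ => gA6 C (dens E w) (KC.msk E φ)) := by
  rw [Ev_append 6 1 w]
  refine Ev_nonneg 6 w ho.wt.nn fun ρ => ?_
  set r := m5 E ![ρ 0, ρ 1, ρ 2, ρ 3, ρ 4] with hr
  set l := l5 E ![ρ 0, ρ 1, ρ 2, ρ 3, ρ 4] (ρ 5) with hl
  set ρ' : ℕ → V := fun a => ρ ⟨a % 6, Nat.mod_lt _ (by norm_num)⟩ with hρ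
  have hρ' : ∀ a : Fin 6, ρ' a.1 = ρ a := fun a => by
    rw [hρ]
    beta_reduce
    congr 1
    exact Fin.ext (Nat.mod_eq_of_lt a.2)
  have e1 : ∀ ψ : Fin 1 → V, gA6 C (dens E w) (KC.msk E (Fin.append ρ ψ : Fin 7 → V)) =
      ∑ a ∈ range 6, ∑ b ∈ range 6, C r l a b *
        (dens E w - b2r (E (ρ' a) (ρ' b) (ψ 0))) := by
    intro ψ
    unfold gA6
    have h1 : KC.msk E (Fin.append ρ ψ : Fin 7 → V) % 2 ^ 10 = r := by
      rw [← msk_eq, msk_m5]; rfl
    have h2 : KC.msk E (Fin.append ρ ψ : Fin 7 → V) / 2 ^ 10 % 2 ^ 10 = l := by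
      rw [← msk_eq, msk_l5a]; rfl
    rw [h1, h2]
    refine Finset.sum_congr rfl fun a ha => Finset.sum_congr rfl fun b hb => ?_
    have ha := Finset.mem_range.1 ha
    have hb := Finset.mem_range.1 hb
    have h4 := KC.msk_bit ho.free (Fin.append ρ ψ : Fin 7 → V) (Fin.castAdd 1 (⟨a, ha⟩ : Fin 6))
      (Fin.castAdd 1 (⟨b, hb⟩ : Fin 6)) (Fin.natAdd 6 (0 : Fin 1))
    rw [Fin.append_left, Fin.append_left, Fin.append_right, ← hρ' ⟨a, ha⟩, ← hρ' ⟨b, hb⟩] at h4
    change (KC.msk E (Fin.append ρ ψ : Fin 7 → V)).testBit (KC.ixs a b 6) =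
      E (ρ' a) (ρ' b) (ψ 0) at h4
    rw [h4]
  rw [Ev_congr 1 w e1]
  have e2 : Ev 1 w (fun ψ => ∑ a ∈ range 6, ∑ b ∈ range 6, C r l a b *
        (dens E w - b2r (E (ρ' a) (ρ' b) (ψ 0)))) =
      ∑ a ∈ range 6, ∑ b ∈ range 6, C r l a b * (dens E w - cod E w (ρ' a) (ρ' b)) := by
    rw [Ev_one w (fun z => ∑ a ∈ range 6, ∑ b ∈ range 6, C r l a b *
        (dens E w - b2r (E (ρ' a) (ρ' b) z)))]
    simp only [Finset.mul_sum]
    rw [Finset.sum_comm]
    refine Finset.sum_congr rfl fun a _ => ?_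
    rw [Finset.sum_comm]
    refine Finset.sum_congr rfl fun b _ => ?_
    have h8 : ∀ z, w z * (C r l a b * (dens E w - b2r (E (ρ' a) (ρ' b) z))) =
        C r l a b * (w z * dens E w - w z * b2r (E (ρ' a) (ρ' b) z)) := fun z => by ring
    rw [Finset.sum_congr rfl fun z _ => h8 z, ← Finset.mul_sum, Finset.sum_sub_distrib,
      ← Finset.sum_mul, ho.wt.one, one_mul]
    rfl
  rw [e2]
  refine psd_trace (hC r l) (sC r l) (k := fun a b => dens E w - cod E w (ρ' a) (ρ' b)) ?_ ?_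
  · intro f
    have h := ineqHA ho ρ (fun a : Fin 6 => f a.1)
    refine h.trans_eq ?_
    rw [Finset.sum_range]
    refine Finset.sum_congr rfl fun a _ => ?_
    rw [Finset.sum_range]
    refine Finset.sum_congr rfl fun b _ => ?_
    beta_reduce
    rw [hρ' a, hρ' b]
    ring
  · intro a b
    have : cod E w (ρ' a) (ρ' b) = cod E w (ρ' b) (ρ' a) := by
      unfold cod
      exact Finset.sum_congr rfl fun z _ => by rw [ho.free.s12]
    beta_reduce
    rw [this]

end

theorem gA6_split (C : ℕ → ℕ → ℕ → ℕ → ℝ) (p q : ℝ) (m : ℕ) :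
    gA6 C q m = gA6 C p m + (q - p) * ∑ a ∈ range 6, ∑ b ∈ range 6,
      C (m % 2 ^ 10) (m / 2 ^ 10 % 2 ^ 10) a b := by
  unfold gA6
  rw [Finset.mul_sum, ← Finset.sum_add_distrib]
  refine Finset.sum_congr rfl fun a _ => ?_
  rw [Finset.mul_sum, ← Finset.sum_add_distrib]
  exact Finset.sum_congr rfl fun b _ => by ring

end KF
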