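import Pool.Agent.Helper85.KV.A2
import Pool.Agent.Helper94.KC.HS2

set_option autoImplicit false

/-!
The family (HA6): symmetrisation over the last two vertices, the inequality for the tables.
-/

namespace KC

open KF Finset

/-! The swap of the vertices 5, 6. -/

theorem tau5_tau5 {m : Nat} (hm : m < 2 ^ 35) : tau 5 (tau 5 m) = m :=
  awl_congr (l := [5, 5]) (k := []) rfl rfl (by decide +kernel) hm

theorem vw_comm5 {W : List Nat} (h : w4 W = true) (a : Fin 7) :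
    vw (5 :: W) a = vw (W ++ [5]) a := by
  obtain ⟨k1, k2, k3⟩ := vw_small W h
  have e1 : vw (5 :: W) a = swF 5 (vw W a) := rfl
  have e2 : vw (W ++ [5]) a = vw W (swF 5 a) := by rw [vw_append]; rfl
  have k : ∀ a : Fin 7, a.1 < 5 → swF 5 a = a := by decide +kernel
  have k5 : swF 5 5 = 6 := by decide +kernel
  have k6 : swF 5 6 = 5 := by decide +kernel
  rw [e1, e2]
  by_cases ha : a.1 < 5
  · rw [k _ (k1 a ha), k a ha]
  · have h2 : a = 5 ∨ a = 6 := by
      have := a.2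
      rcases (by omega : a.1 = 5 ∨ a.1 = 6) with h | h
      · left; exact Fin.ext h
      · right; exact Fin.ext h
    rcases h2 with rfl | rfl
    · rw [k2, k5, k3]
    · rw [k3, k6, k2]

theorem awl_tau5 {W : List Nat} (h : w4 W = true) {m : Nat} (hm : m < 2 ^ 35) :
    awl W (tau 5 m) = tau 5 (awl W m) := by
  have h1 := awl_congr (l := 5 :: W) (k := W ++ [5]) (wok_cons.2 ⟨by norm_num, w4_wok h⟩)
    (wok_append (w4_wok h) rfl) (vw_comm5 h) hm
  rw [awl_append] at h1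
  exact h1

theorem tau_tau5 {j : Nat} (hj : j < 4) {m : Nat} (hm : m < 2 ^ 35) :
    tau j (tau 5 m) = tau 5 (tau j m) :=
  awl_tau5 (W := [j]) (w4_cons.2 ⟨hj, rfl⟩) hm

theorem Em_tau5 {V : Type} [Fintype V] {E : V → V → V → Bool} (hE : K4m E) {w : V → ℝ}
    (hw : Wt w) (F : Nat → ℤ) : Em E w (fun m => F (tau 5 m)) = Em E w F :=
  Ev_tau hE w hw.one 5 (by norm_num) (fun m => ((F m : ℤ) : ℝ))

namespace ATab

variable (P : ATab)

/-- The integrand, symmetric in the last two vertices. -/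
noncomputable def H6 (T : Tab) (m : Nat) : ℤ := P.GA T m + P.GA T (tau 5 m)
/-- The slope, symmetric in the last two vertices. -/
noncomputable def K6 (T : Tab) (m : Nat) : ℤ := P.GC T m + P.GC T (tau 5 m)

variable {T : Tab} {gens : Nat → List (List Nat)} {cert : List (Nat × List (List Nat))}

theorem sym_inv {F : Nat → ℤ} (hF : ∀ W ∈ ([[0], [1], [2], [3]] : List (List Nat)), ∀ m, Adm m →
    F (awl W m) = F m) : ∀ W ∈ ([[0], [1], [2], [3], [5]] : List (List Nat)), ∀ m, Adm m →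
      F (awl W m) + F (tau 5 (awl W m)) = F m + F (tau 5 m) := by
  intro W hW m hm
  have hm5 := adm_tau hm 5 (by norm_num)
  simp only [List.mem_cons, List.not_mem_nil, or_false] at hW
  have key : ∀ j < 4, [j] ∈ ([[0], [1], [2], [3]] : List (List Nat)) →
      F (awl [j] m) + F (tau 5 (awl [j] m)) = F m + F (tau 5 m) := by
    intro j hj hmem
    have h1 := hF [j] hmem m hm
    have h2 := hF [j] hmem _ hm5
    have h3 : awl [j] (tau 5 m) = tau 5 (awl [j] m) := tau_tau5 hj hm.lt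
    rw [h1, ← h3, h2]
  rcases hW with rfl | rfl | rfl | rfl | rfl
  · exact key 0 (by norm_num) (by simp)
  · exact key 1 (by norm_num) (by simp)
  · exact key 2 (by norm_num) (by simp)
  · exact key 3 (by norm_num) (by simp)
  · change F (tau 5 m) + F (tau 5 (tau 5 m)) = _
    rw [tau5_tau5 hm.lt, add_comm]

theorem H6_inv (h : T.Good gens cert) (hP : ∀ t < T.NT, ∀ W ∈ gens t, P.ckW T t W = true) :
    ∀ W ∈ ([[0], [1], [2], [3], [5]] : List (List Nat)), ∀ m, Adm m →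
      P.H6 T (awl W m) = P.H6 T m := sym_inv (P.GA_inv h hP)

theorem K6_inv (h : T.Good gens cert) (hP : ∀ t < T.NT, ∀ W ∈ gens t, P.ckW T t W = true) :
    ∀ W ∈ ([[0], [1], [2], [3], [5]] : List (List Nat)), ∀ m, Adm m →
      P.K6 T (awl W m) = P.K6 T m := sym_inv (P.GC_inv h hP)

/-! The matrices for labelled roots. -/

/-- The matrix for labelled roots. -/
noncomputable def CR (T : Tab) (r l a b : Nat) : ℝ :=
  if r < 2 ^ 10 ∧ l < 2 ^ 10 then
    ((P.cA (T.ty r) (T.fi (T.ty r) (al5 (T.wr r) l)) (vb (T.wr r).reverse a)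
      (vb (T.wr r).reverse b) : ℤ) : ℝ) else 0

theorem ix6_comm (a b : Nat) : ix6 a b = ix6 b a := by
  unfold ix6
  rcases lt_trichotomy a b with h | h | h
  · rw [if_pos h, if_neg (by omega), if_pos h]
  · subst h; rfl
  · rw [if_neg (by omega), if_pos h, if_pos h]

theorem cA_comm (t f a b : Nat) : P.cA t f a b = P.cA t f b a := by
  unfold cA
  rw [ix6_comm]

theorem CR_comm (T : Tab) (r l a b : Nat) : P.CR T r l a b = P.CR T r l b a := by
  unfold CR
  rw [cA_comm]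

theorem CR_psd (h : T.Good gens cert)
    (hC : ∀ t < T.NT, ∀ f < T.nf t, Psd 6 (fun a b => ((P.cA t f a b : ℤ) : ℝ))) (r l : Nat) :
    Psd 6 (P.CR T r l) := by
  intro x
  by_cases hrl : r < 2 ^ 10 ∧ l < 2 ^ 10
  · obtain ⟨hr, hl⟩ := hrl
    have ht := h.tyr hr
    have hw := h.w4r hr
    have hlt : al5 (T.wr r) l < 2 ^ 10 := by
      have e : l = lk5 (l * 2 ^ 10) := by
        unfold lk5
        rw [Nat.mul_div_cancel _ (by norm_num), Nat.mod_eq_of_lt hl]
      rw [e, ← lk5_awl _ _ hw]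
      exact lk5_lt _
    have h1 := hC _ ht _ (h.fi_lt ht hlt) (fun a => x (vb (T.wr r) a))
    refine h1.trans_eq ?_
    unfold CR
    simp only [hr, hl, and_self, if_true]
    have e1 : ∑ a ∈ range 6, ∑ b ∈ range 6,
        ((P.cA (T.ty r) (T.fi (T.ty r) (al5 (T.wr r) l)) (vb (T.wr r).reverse a)
          (vb (T.wr r).reverse b) : ℤ) : ℝ) * x a * x b =
        ∑ a ∈ range 6, ∑ b ∈ range 6,
        ((P.cA (T.ty r) (T.fi (T.ty r) (al5 (T.wr r) l))
          (vb (T.wr r).reverse (vb (T.wr r) a)) (vb (T.wr r).reverse (vb (T.wr r) b)) : ℤ) : ℝ) *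
          x (vb (T.wr r) a) * x (vb (T.wr r) b) := by
      rw [← sum_vb hw (fun a => ∑ b ∈ range 6,
        ((P.cA (T.ty r) (T.fi (T.ty r) (al5 (T.wr r) l)) (vb (T.wr r).reverse a)
          (vb (T.wr r).reverse b) : ℤ) : ℝ) * x a * x b)]
      refine sum_congr rfl fun a _ => ?_
      exact (sum_vb hw (fun b =>
        ((P.cA (T.ty r) (T.fi (T.ty r) (al5 (T.wr r) l)) (vb (T.wr r).reverse (vb (T.wr r) a))
          (vb (T.wr r).reverse b) : ℤ) : ℝ) * x (vb (T.wr r) a) * x b)).symm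
    rw [e1]
    refine sum_congr rfl fun a ha => sum_congr rfl fun b hb => ?_
    rw [vb_rev2 hw (mem_range.1 ha), vb_rev2 hw (mem_range.1 hb)]
  · unfold CR
    simp only [hrl, if_false, zero_mul, Finset.sum_const_zero, le_refl]

/-- The integrand for labelled roots. -/
theorem GA_eq (h : T.Good gens cert) (q : ℝ) {m : Nat} (hm : m < 2 ^ 35) :
    ((P.GA T m : ℤ) : ℝ) = P.A * gA6 (P.CR T) q m - (P.A * q - P.B) * (P.GC T m : ℤ) := by
  have hw := h.w4r (rt_lt m)
  set W := T.wr (rt m) with hW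
  set t := T.ty (rt m) with ht
  set f := T.fi t (lk5 (awl W m)) with hf
  have hf2 : T.fi t (al5 W (lk5 m)) = f := by rw [hf, lk5_awl _ _ hw]
  have e1 : P.GA T m = ∑ a ∈ range 6, ∑ b ∈ range 6, P.cA t f a b *
      (P.B - P.A * (if b6 m (vb W a) (vb W b) = true then 1 else 0)) := by
    unfold GA Tab.lift HA
    rw [← hW, ← ht, ← hf]
    refine sum_congr rfl fun a ha => sum_congr rfl fun b hb => ?_
    rw [b6_awl hw hm (mem_range.1 ha) (mem_range.1 hb)]
  have e2 : P.GC T m = ∑ a ∈ range 6, ∑ b ∈ range 6, P.cA t f a b := by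
    unfold GC Tab.lift HC SC
    rw [← hW, ← ht, ← hf]
  have e3 : gA6 (P.CR T) q m = ∑ a ∈ range 6, ∑ b ∈ range 6, ((P.cA t f a b : ℤ) : ℝ) *
      (q - b2r (b6 m (vb W a) (vb W b))) := by
    unfold gA6
    rw [← sum_vb hw (fun a => ∑ b ∈ range 6, P.CR T (m % 2 ^ 10) (m / 2 ^ 10 % 2 ^ 10) a b *
      (q - b2r (m.testBit (ixs a b 6))))]
    refine sum_congr rfl fun a ha => ?_
    rw [← sum_vb hw (fun b => P.CR T (m % 2 ^ 10) (m / 2 ^ 10 % 2 ^ 10) (vb W a) b *
      (q - b2r (m.testBit (ixs (vb W a) b 6))))]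
    refine sum_congr rfl fun b hb => ?_
    have hr : m % 2 ^ 10 < 2 ^ 10 ∧ m / 2 ^ 10 % 2 ^ 10 < 2 ^ 10 := ⟨rt_lt m, lk5_lt m⟩
    unfold CR
    rw [if_pos hr]
    change ((P.cA t (T.fi t (al5 W (lk5 m))) (vb W.reverse (vb W a)) (vb W.reverse (vb W b)) : ℤ) : ℝ)
      * (q - b2r (b6 m (vb W a) (vb W b))) = _
    rw [vb_rev2 hw (mem_range.1 ha), vb_rev2 hw (mem_range.1 hb), hf2]
  rw [e1, e2, e3, Int.cast_sum, Int.cast_sum, mul_sum, mul_sum, ← sum_sub_distrib]
  refine sum_congr rfl fun a _ => ?_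
  rw [Int.cast_sum, Int.cast_sum, mul_sum, mul_sum, ← sum_sub_distrib]
  refine sum_congr rfl fun b _ => ?_
  unfold b2r
  push_cast
  split_ifs <;> ring

section
variable {V : Type} [Fintype V]

/-- (HA6) for the integer tables. -/
theorem em_GA (h : T.Good gens cert)
    (hC : ∀ t < T.NT, ∀ f < T.nf t, Psd 6 (fun a b => ((P.cA t f a b : ℤ) : ℝ)))
    {E : V → V → V → Bool} {w : V → ℝ} (ho : Opt E w) :
    -(P.A * dens E w - P.B) * Em E w (P.GC T) ≤ Em E w (P.GA T) := by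
  have h1 := kcA6 ho (P.CR_psd h hC) (P.CR_comm T)
  have e1 : Em E w (P.GA T) = P.A * Ev 7 w (fun φ => gA6 (P.CR T) (dens E w) (KC.msk E φ)) -
      (P.A * dens E w - P.B) * Em E w (P.GC T) := by
    unfold Em
    rw [Ev_congr 7 w fun φ => P.GA_eq h (dens E w) (msk_lt E φ), Ev_sub, Ev_mul, Ev_mul]
  rw [e1]
  have h2 : 0 ≤ (P.A : ℝ) * Ev 7 w (fun φ => gA6 (P.CR T) (dens E w) (KC.msk E φ)) :=
    mul_nonneg (Nat.cast_nonneg _) h1
  linarith

end

theorem fok_H6 {p : ℝ} (h : T.Good gens cert)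
    (hC : ∀ t < T.NT, ∀ f < T.nf t, Psd 6 (fun a b => ((P.cA t f a b : ℤ) : ℝ)))
    (hp : (P.A : ℝ) * p = P.B) :
    FOK p (P.H6 T) (fun _ => 0) (fun m => -(P.A : ℤ) * P.K6 T m) := by
  refine FOK.of_lin (K := 0) fun n E w ho => ?_
  have h1 := P.em_GA h hC ho
  have e1 : Em E w (P.H6 T) = 2 * Em E w (P.GA T) := by
    unfold H6
    rw [Em_add, Em_tau5 ho.free ho.wt]
    ring
  have e2 : Em E w (fun m => -(P.A : ℤ) * P.K6 T m) = -(2 * P.A) * Em E w (P.GC T) := by
    rw [Em_smul]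
    unfold K6
    rw [Em_add, Em_tau5 ho.free ho.wt]
    push_cast
    ring
  rw [Em_const E ho.wt, e1, e2]
  push_cast
  have : (P.A : ℝ) * dens E w - P.B = P.A * (dens E w - p) := by rw [← hp]; ring
  rw [this] at h1
  linarith

/-- The family (HA6), symmetrised. -/
theorem ff_H6 {p : ℝ} (h : T.Good gens cert)
    (hP : ∀ t < T.NT, ∀ W ∈ gens t, P.ckW T t W = true)
    (hC : ∀ t < T.NT, ∀ f < T.nf t, Psd 6 (fun a b => ((P.cA t f a b : ℤ) : ℝ)))
    (hp : (P.A : ℝ) * p = P.B) :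
    FF p (fam tree5.tr (P.H6 T)) (fun _ => 0)
      (fun m => -(P.A : ℤ) * fam tree5.tr (P.K6 T) m) :=
  (FF.of_fam invT5 (P.fok_H6 h hC hp) (P.H6_inv h hP) (fun _ _ _ _ => rfl)
    (fun W hW m hm => by rw [P.K6_inv h hP W hW m hm])).congr (fun _ => rfl)
    (fun m => (fam_zero _ m).symm) (fun m => (fam_smul _ _ _ m).symm)

end ATab

end KC
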