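import Pool.Agent.Helper85.KV.N1
import Pool.Agent.Helper85.KV.A1
import Pool.Agent.Helper13.KC.S5c

set_option autoImplicit false

/-!
Table form of (HA6): five canonically labelled roots, the sixth root is a flag.
-/

namespace KC

open KF Finset

/-! Permutations of the first six vertices. -/

theorem vw_inj : ∀ (W : List Nat), wok W = true → Function.Injective (vw W) := by
  intro W
  induction W with
  | nil => intro _ a b hab; exact hab
  | cons i W ih =>
    intro h a b hab
    obtain ⟨h1, h2⟩ := wok_cons.1 h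
    exact ih h2 (swF_inj i h1 hab)

theorem swF_swF : ∀ i < 6, ∀ a : Fin 7, swF i (swF i a) = a := by decide +kernel

theorem vw_rev : ∀ (W : List Nat), wok W = true → ∀ a, vw W.reverse (vw W a) = a
  | [], _, _ => rfl
  | i :: W, h, a => by
    obtain ⟨h1, h2⟩ := wok_cons.1 h
    have e : vw (i :: W) a = swF i (vw W a) := rfl
    rw [e, List.reverse_cons, vw_append]
    have e2 : vw [i] (swF i (vw W a)) = swF i (swF i (vw W a)) := rfl
    rw [e2, swF_swF i h1, vw_rev W h2]

theorem wok_rev {W : List Nat} (h : wok W = true) : wok W.reverse = true := by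
  unfold wok at *
  rw [List.all_reverse]; exact h

theorem vw_rev' {W : List Nat} (h : wok W = true) (a : Fin 7) : vw W (vw W.reverse a) = a := by
  have := vw_rev W.reverse (wok_rev h) a
  rwa [List.reverse_reverse] at this

/-- The vertex permutation as a function on numbers. -/
def vb (W : List Nat) (a : Nat) : Nat := (vw W (f7 a)).1

theorem f7_val {a : Nat} (h : a < 7) : (f7 a).1 = a := by
  unfold f7; change a % 7 = a; omega

theorem vb_lt {W : List Nat} (h : w4 W = true) {a : Nat} (ha : a < 6) : vb W a < 6 := by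
  obtain ⟨k1, k2, -⟩ := vw_small W h
  unfold vb
  by_cases h5 : a < 5
  · have := k1 (f7 a) (by rw [f7_val (by omega)]; exact h5)
    omega
  · have : f7 a = 5 := Fin.ext (by rw [f7_val (by omega)]; change a = 5; omega)
    rw [this, k2]; decide

theorem vb_inj {W : List Nat} (h : w4 W = true) {a b : Nat} (ha : a < 6) (hb : b < 6)
    (e : vb W a = vb W b) : a = b := by
  have h1 : vw W (f7 a) = vw W (f7 b) := Fin.ext e
  have h2 := vw_inj W (w4_wok h) h1
  have h3 : (f7 a).1 = (f7 b).1 := by rw [h2]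
  rwa [f7_val (by omega), f7_val (by omega)] at h3

theorem sum_vb {M : Type} [AddCommMonoid M] {W : List Nat} (h : w4 W = true) (F : Nat → M) :
    ∑ a ∈ range 6, F (vb W a) = ∑ a ∈ range 6, F a := by
  have himg : (range 6).image (vb W) = range 6 := by
    refine Finset.eq_of_subset_of_card_le ?_ ?_
    · intro x hx
      obtain ⟨a, ha, rfl⟩ := Finset.mem_image.1 hx
      exact mem_range.2 (vb_lt h (mem_range.1 ha))
    · rw [Finset.card_image_of_injOn]
      intro a ha b hb e
      exact vb_inj h (mem_range.1 ha) (mem_range.1 hb) e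
  conv_rhs => rw [← himg]
  rw [Finset.sum_image]
  intro a ha b hb e
  exact vb_inj h (mem_range.1 ha) (mem_range.1 hb) e

theorem w4_rev {W : List Nat} (h : w4 W = true) : w4 W.reverse = true := by
  unfold w4 at *
  rw [List.all_reverse]; exact h

theorem vb_rev {W : List Nat} (h : w4 W = true) {a : Nat} (ha : a < 6) :
    vb W (vb W.reverse a) = a := by
  unfold vb
  have e : f7 (vw W.reverse (f7 a)).1 = vw W.reverse (f7 a) :=
    Fin.ext (f7_val (vw W.reverse (f7 a)).2)
  rw [e, vw_rev' (w4_wok h), f7_val (by omega)]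

theorem vb_rev2 {W : List Nat} (h : w4 W = true) {a : Nat} (ha : a < 6) :
    vb W.reverse (vb W a) = a := by
  have := vb_rev (w4_rev h) ha
  rwa [List.reverse_reverse] at this

/-- The bit of the triple `(a, b, 6)`. -/
def b6 (m a b : Nat) : Bool := m.testBit (ixs a b 6)

theorem b6_awl {W : List Nat} (h : w4 W = true) {m : Nat} (hm : m < 2 ^ 35) {a b : Nat}
    (ha : a < 6) (hb : b < 6) : b6 (awl W m) a b = b6 m (vb W a) (vb W b) := by
  have h1 := awl_bt W (w4_wok h) hm (f7 a) (f7 b) 6
  obtain ⟨-, -, k3⟩ := vw_small W h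
  rw [k3] at h1
  unfold bt at h1
  rw [f7_val (by omega), f7_val (by omega)] at h1
  exact h1

/-! The tables. -/

/-- Tables of the matrices: `CT.get (512 t + f)` is `0` for the zero matrix, or packs the
entries `C_ab + OFE` (15 pairs in colex order, then the diagonal), the number `OFF + B * sum`
and the number `OFF + sum` in fields of 96 bits. -/
structure ATab where
  A : Nat
  B : Nat
  OFE : Nat
  OFF : Nat
  CT : BT

namespace ATab

variable (P : ATab)

/-- The packed matrix. -/
noncomputable def xx (t f : Nat) : Nat := P.CT.get (Nat.add (Nat.mul t 512) f)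
/-- Index of an entry. -/
def ix6 (a b : Nat) : Nat :=
  if a < b then b * (b - 1) / 2 + a else if b < a then a * (a - 1) / 2 + b else 15 + a
/-- Entry of the matrix. -/
noncomputable def cA (t f a b : Nat) : ℤ :=
  if P.xx t f = 0 then 0 else (fld (P.xx t f) (ix6 a b) : ℤ) - P.OFE
/-- Sum of the entries. -/
noncomputable def SC (t f : Nat) : ℤ := ∑ a ∈ range 6, ∑ b ∈ range 6, P.cA t f a b

/-- The integrand on canonically labelled masks. -/
noncomputable def HA (T : Tab) (t m : Nat) : ℤ :=
  ∑ a ∈ range 6, ∑ b ∈ range 6, P.cA t (T.fi t (lk5 m)) a b *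
    (P.B - P.A * (if b6 m a b = true then 1 else 0))
/-- The sum of the entries on canonically labelled masks. -/
noncomputable def HC (T : Tab) (t m : Nat) : ℤ := P.SC t (T.fi t (lk5 m))

/-- The integrand. -/
noncomputable def GA (T : Tab) (m : Nat) : ℤ := T.lift (P.HA T) m
/-- The slope. -/
noncomputable def GC (T : Tab) (m : Nat) : ℤ := T.lift (P.HC T) m

/-- Invariance of the table under the word `W`. -/
noncomputable def ckW (T : Tab) (t : Nat) (W : List Nat) : Bool :=
  (List.range (T.nf t)).all fun f =>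
    fc (P.xx t f) fun X => fc (P.xx t (T.fi t (al5 W (T.fl t f)))) fun Y =>
    Bool.rec (motive := fun _ => Bool)
      (!(Nat.beq Y 0) && (List.range 6).all fun a => (List.range 6).all fun b =>
        Nat.beq (fld Y (ix6 a b)) (fld X (ix6 (vb W a) (vb W b))))
      (Nat.beq Y 0) (Nat.beq X 0)

theorem cA_of_ckW {T : Tab} {t : Nat} {W : List Nat} (h : P.ckW T t W = true) {f : Nat}
    (hf : f < T.nf t) {a b : Nat} (ha : a < 6) (hb : b < 6) :
    P.cA t (T.fi t (al5 W (T.fl t f))) a b = P.cA t f (vb W a) (vb W b) := by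
  simp only [ckW, List.all_eq_true, List.mem_range, fc_eq] at h
  have h1 := h f hf
  unfold cA
  cases hx : Nat.beq (P.xx t f) 0
  · rw [hx] at h1
    change (!(Nat.beq (P.xx t (T.fi t (al5 W (T.fl t f)))) 0) && (List.range 6).all fun a =>
      (List.range 6).all fun b => Nat.beq (fld (P.xx t (T.fi t (al5 W (T.fl t f)))) (ix6 a b))
        (fld (P.xx t f) (ix6 (vb W a) (vb W b)))) = true at h1
    simp only [Bool.and_eq_true, List.all_eq_true, List.mem_range, Bool.not_eq_true'] at h1
    obtain ⟨h2, h3⟩ := h1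
    have hx' : P.xx t f ≠ 0 := fun e => by rw [e] at hx; exact absurd hx (by decide)
    have hy' : P.xx t (T.fi t (al5 W (T.fl t f))) ≠ 0 := fun e => by
      rw [e] at h2; exact absurd h2 (by decide)
    rw [if_neg hx', if_neg hy', Nat.eq_of_beq_eq_true (h3 a ha b hb)]
  · rw [hx] at h1
    change Nat.beq (P.xx t (T.fi t (al5 W (T.fl t f)))) 0 = true at h1
    rw [if_pos (Nat.eq_of_beq_eq_true hx), if_pos (Nat.eq_of_beq_eq_true h1)]

variable {T : Tab} {gens : Nat → List (List Nat)} {cert : List (Nat × List (List Nat))}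

theorem HA_gen (h : T.Good gens cert) (hP : ∀ t < T.NT, ∀ W ∈ gens t, P.ckW T t W = true) :
    ∀ t < T.NT, ∀ W ∈ gens t, ∀ m, Adm m → rt m = T.sg t → P.HA T t (awl W m) = P.HA T t m := by
  intro t ht W hW m hm hr
  have h5 := h.c5 t ht
  simp only [Tab.ck5, List.all_eq_true, Bool.and_eq_true] at h5
  obtain ⟨hw4, -⟩ := h5 W hW
  have a1 := h.fl_fi ht (lk5_lt m) (by rw [← hr]; exact vio_lk5 hm)
  have key : ∀ a < 6, ∀ b < 6, P.cA t (T.fi t (lk5 (awl W m))) a b *
      (P.B - P.A * (if b6 (awl W m) a b = true then (1 : ℤ) else 0)) =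
      P.cA t (T.fi t (lk5 m)) (vb W a) (vb W b) *
      (P.B - P.A * (if b6 m (vb W a) (vb W b) = true then (1 : ℤ) else 0)) := by
    intro a ha b hb
    have h6 := P.cA_of_ckW (hP t ht W hW) (h.fi_lt ht (lk5_lt m)) ha hb
    rw [a1] at h6
    rw [lk5_awl _ _ hw4, h6, b6_awl hw4 hm.lt ha hb]
  unfold HA
  calc ∑ a ∈ range 6, ∑ b ∈ range 6, P.cA t (T.fi t (lk5 (awl W m))) a b *
      (P.B - P.A * (if b6 (awl W m) a b = true then (1 : ℤ) else 0))
      = ∑ a ∈ range 6, ∑ b ∈ range 6, P.cA t (T.fi t (lk5 m)) (vb W a) (vb W b) *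
      (P.B - P.A * (if b6 m (vb W a) (vb W b) = true then (1 : ℤ) else 0)) :=
        sum_congr rfl fun a ha => sum_congr rfl fun b hb =>
          key a (mem_range.1 ha) b (mem_range.1 hb)
    _ = ∑ a ∈ range 6, ∑ b ∈ range 6, P.cA t (T.fi t (lk5 m)) (vb W a) b *
      (P.B - P.A * (if b6 m (vb W a) b = true then (1 : ℤ) else 0)) :=
        sum_congr rfl fun a _ => sum_vb hw4 (fun b => P.cA t (T.fi t (lk5 m)) (vb W a) b *
          (P.B - P.A * (if b6 m (vb W a) b = true then (1 : ℤ) else 0)))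
    _ = _ := sum_vb hw4 (fun a => ∑ b ∈ range 6, P.cA t (T.fi t (lk5 m)) a b *
          (P.B - P.A * (if b6 m a b = true then (1 : ℤ) else 0)))

theorem HC_gen (h : T.Good gens cert) (hP : ∀ t < T.NT, ∀ W ∈ gens t, P.ckW T t W = true) :
    ∀ t < T.NT, ∀ W ∈ gens t, ∀ m, Adm m → rt m = T.sg t → P.HC T t (awl W m) = P.HC T t m := by
  intro t ht W hW m hm hr
  have h5 := h.c5 t ht
  simp only [Tab.ck5, List.all_eq_true, Bool.and_eq_true] at h5
  obtain ⟨hw4, -⟩ := h5 W hW
  have a1 := h.fl_fi ht (lk5_lt m) (by rw [← hr]; exact vio_lk5 hm)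
  have key : ∀ a < 6, ∀ b < 6, P.cA t (T.fi t (lk5 (awl W m))) a b =
      P.cA t (T.fi t (lk5 m)) (vb W a) (vb W b) := by
    intro a ha b hb
    have h6 := P.cA_of_ckW (hP t ht W hW) (h.fi_lt ht (lk5_lt m)) ha hb
    rw [a1] at h6
    rw [lk5_awl _ _ hw4, h6]
  unfold HC SC
  calc ∑ a ∈ range 6, ∑ b ∈ range 6, P.cA t (T.fi t (lk5 (awl W m))) a b
      = ∑ a ∈ range 6, ∑ b ∈ range 6, P.cA t (T.fi t (lk5 m)) (vb W a) (vb W b) :=
        sum_congr rfl fun a ha => sum_congr rfl fun b hb =>
          key a (mem_range.1 ha) b (mem_range.1 hb)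
    _ = ∑ a ∈ range 6, ∑ b ∈ range 6, P.cA t (T.fi t (lk5 m)) (vb W a) b :=
        sum_congr rfl fun a _ => sum_vb hw4 (fun b => P.cA t (T.fi t (lk5 m)) (vb W a) b)
    _ = _ := sum_vb hw4 (fun a => ∑ b ∈ range 6, P.cA t (T.fi t (lk5 m)) a b)

theorem GA_inv (h : T.Good gens cert) (hP : ∀ t < T.NT, ∀ W ∈ gens t, P.ckW T t W = true) :
    ∀ W ∈ ([[0], [1], [2], [3]] : List (List Nat)), ∀ m, Adm m →
      P.GA T (awl W m) = P.GA T m := by
  intro W hW m hm
  simp only [List.mem_cons, List.not_mem_nil, or_false] at hW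
  rcases hW with rfl | rfl | rfl | rfl
  · exact Tab.lift_tau (j := 0) h (P.HA_gen h hP) hm (by norm_num)
  · exact Tab.lift_tau (j := 1) h (P.HA_gen h hP) hm (by norm_num)
  · exact Tab.lift_tau (j := 2) h (P.HA_gen h hP) hm (by norm_num)
  · exact Tab.lift_tau (j := 3) h (P.HA_gen h hP) hm (by norm_num)

theorem GC_inv (h : T.Good gens cert) (hP : ∀ t < T.NT, ∀ W ∈ gens t, P.ckW T t W = true) :
    ∀ W ∈ ([[0], [1], [2], [3]] : List (List Nat)), ∀ m, Adm m →
      P.GC T (awl W m) = P.GC T m := by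
  intro W hW m hm
  simp only [List.mem_cons, List.not_mem_nil, or_false] at hW
  rcases hW with rfl | rfl | rfl | rfl
  · exact Tab.lift_tau (j := 0) h (P.HC_gen h hP) hm (by norm_num)
  · exact Tab.lift_tau (j := 1) h (P.HC_gen h hP) hm (by norm_num)
  · exact Tab.lift_tau (j := 2) h (P.HC_gen h hP) hm (by norm_num)
  · exact Tab.lift_tau (j := 3) h (P.HC_gen h hP) hm (by norm_num)

end ATab

end KC
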