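import Pool.Agent.Helper85.KV.A3

set_option autoImplicit false

/-!
The family (HA6): kernel evaluation of the integrand and of the slope, check of positive
semidefiniteness.
-/

namespace KC

open KF Finset

/-- Sum of the fields below `n`. -/
noncomputable def fsum (X : Nat) : Nat → Nat :=
  Nat.rec (motive := fun _ => Nat) 0 (fun k ih => Nat.add ih (fld X k))

theorem fsum_eq (X n : Nat) : fsum X n = ∑ k ∈ range n, fld X k := by
  induction n with
  | zero => rfl
  | succ n ih =>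
    rw [sum_range_succ, ← ih]
    rfl

/-- A sum over all pairs of six vertices of a symmetric function. -/
theorem sum66 (F : Nat → Nat → ℤ) (sF : ∀ a < 6, ∀ b < 6, F a b = F b a) :
    ∑ a ∈ range 6, ∑ b ∈ range 6, F a b =
      2 * (F 0 1 + F 0 2 + F 1 2 + F 0 3 + F 1 3 + F 2 3 + F 0 4 + F 1 4 + F 2 4 + F 3 4 +
        F 0 5 + F 1 5 + F 2 5 + F 3 5 + F 4 5) + (F 0 0 + F 1 1 + F 2 2 + F 3 3 + F 4 4 + F 5 5) := by
  simp only [sum_range_succ, sum_range_zero, zero_add]
  have s (a b : Nat) (ha : a < 6) (hb : b < 6) := sF a ha b hb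
  rw [s 1 0 (by norm_num) (by norm_num), s 2 0 (by norm_num) (by norm_num),
    s 2 1 (by norm_num) (by norm_num), s 3 0 (by norm_num) (by norm_num),
    s 3 1 (by norm_num) (by norm_num), s 3 2 (by norm_num) (by norm_num),
    s 4 0 (by norm_num) (by norm_num), s 4 1 (by norm_num) (by norm_num),
    s 4 2 (by norm_num) (by norm_num), s 4 3 (by norm_num) (by norm_num),
    s 5 0 (by norm_num) (by norm_num), s 5 1 (by norm_num) (by norm_num),
    s 5 2 (by norm_num) (by norm_num), s 5 3 (by norm_num) (by norm_num),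
    s 5 4 (by norm_num) (by norm_num)]
  ring

theorem bit6 (m k : Nat) (hk : k < 15) :
    (Nat.land (Nat.shiftRight m 20) 32767).testBit k = m.testBit (20 + k) := by
  rw [land_bit]
  have h : Nat.shiftRight m 20 = m >>> 20 := rfl
  rw [h, Nat.testBit_shiftRight]
  have h2 : (32767 : Nat) = 2 ^ 15 - 1 := by norm_num
  rw [h2, Nat.testBit_two_pow_sub_one, decide_eq_true hk, Bool.and_true]

namespace ATab

variable (P : ATab)

/-- The value at a canonically labelled mask, with offset. -/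
noncomputable def valK (T : Tab) (t m' : Nat) : Nat :=
  fc (P.xx t (T.fi t (Nat.land (Nat.shiftRight m' 10) 1023))) fun X =>
  Bool.rec (motive := fun _ => Nat)
    (fc (Nat.land (Nat.shiftRight m' 20) 32767) fun y =>
      fc (Nat.mul 2 P.A) fun A2 =>
      fc (Nat.mul A2 P.OFE) fun c =>
      Nat.sub (wsum (fun _ => c) 15 y (fld X 21)) (Nat.mul A2 (wsum (fld X) 15 y 0)))
    P.OFF (Nat.beq X 0)

/-- The slope at a canonically labelled mask, with offset. -/
noncomputable def slK (T : Tab) (t m' : Nat) : Nat :=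
  fc (P.xx t (T.fi t (Nat.land (Nat.shiftRight m' 10) 1023))) fun X =>
  Bool.rec (motive := fun _ => Nat) (fld X 22) P.OFF (Nat.beq X 0)

/-- Kernel version of the integrand, with offset. -/
noncomputable def h6K (T : Tab) (m : Nat) : Nat :=
  fc (T.cw (Nat.land m 1023)) fun c =>
  fc (awN 12 (Nat.shiftRight c 4) m) fun m' =>
  fc (Nat.land c 15) fun t =>
  fc (P.valK T t m') fun v => fc (tau 5 m') fun m'' => Nat.add v (P.valK T t m'')

/-- Kernel version of the slope, with offset. -/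
noncomputable def k6K (T : Tab) (m : Nat) : Nat :=
  fc (T.cw (Nat.land m 1023)) fun c =>
  fc (awN 12 (Nat.shiftRight c 4) m) fun m' =>
  fc (Nat.land c 15) fun t =>
  fc (P.slK T t m') fun v => fc (tau 5 m') fun m'' => Nat.add v (P.slK T t m'')

/-- Check of one matrix. -/
noncomputable def ckX1 (X : Nat) : Bool :=
  fc (fsum X 15) fun s => fc (fsum X 21) fun s' =>
    Nat.beq (Nat.add (fld X 22) (Nat.mul 36 P.OFE)) (Nat.add P.OFF (Nat.add s s')) &&
    Nat.beq (Nat.add (fld X 21) (Nat.mul P.B (Nat.mul 36 P.OFE)))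
      (Nat.add P.OFF (Nat.mul P.B (Nat.add s s'))) &&
    Nat.ble (Nat.mul (Nat.mul 2 P.A) s) (fld X 21)

/-- Check of all the matrices of a type. -/
noncomputable def ckX (T : Tab) (t : Nat) : Bool :=
  (List.range (T.nf t)).all fun f =>
    fc (P.xx t f) fun X => Bool.rec (motive := fun _ => Bool) (P.ckX1 X) true (Nat.beq X 0)

variable {P}

theorem ckX1_of {T : Tab} {t f : Nat} (h : P.ckX T t = true) (hf : f < T.nf t)
    (hx : P.xx t f ≠ 0) : P.ckX1 (P.xx t f) = true := by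
  simp only [ckX, List.all_eq_true, List.mem_range, fc_eq] at h
  have h1 := h f hf
  cases hb : Nat.beq (P.xx t f) 0
  · rw [hb] at h1
    exact h1
  · exact absurd (Nat.eq_of_beq_eq_true hb) hx

theorem fsum_15_21 (X : Nat) : (fsum X 15 : ℤ) + fsum X 21 =
    2 * ∑ k ∈ range 15, (fld X k : ℤ) + (fld X 15 + fld X 16 + fld X 17 + fld X 18 + fld X 19 +
      fld X 20) := by
  rw [fsum_eq, fsum_eq]
  simp only [sum_range_succ, sum_range_zero]
  push_cast
  ring

theorem SC_eq {t f : Nat} (hx : P.xx t f ≠ 0) : P.SC t f =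
    (fsum (P.xx t f) 15 : ℤ) + fsum (P.xx t f) 21 - 36 * P.OFE := by
  unfold SC
  rw [sum66 _ (fun a _ b _ => P.cA_comm t f a b), fsum_15_21]
  unfold cA
  simp only [if_neg hx, sum_range_succ, sum_range_zero]
  have e : ix6 0 1 = 0 ∧ ix6 0 2 = 1 ∧ ix6 1 2 = 2 ∧ ix6 0 3 = 3 ∧ ix6 1 3 = 4 ∧ ix6 2 3 = 5 ∧
    ix6 0 4 = 6 ∧ ix6 1 4 = 7 ∧ ix6 2 4 = 8 ∧ ix6 3 4 = 9 ∧ ix6 0 5 = 10 ∧ ix6 1 5 = 11 ∧
    ix6 2 5 = 12 ∧ ix6 3 5 = 13 ∧ ix6 4 5 = 14 ∧ ix6 0 0 = 15 ∧ ix6 1 1 = 16 ∧ ix6 2 2 = 17 ∧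
    ix6 3 3 = 18 ∧ ix6 4 4 = 19 ∧ ix6 5 5 = 20 := by decide +kernel
  obtain ⟨h1, h2, h3, h4, h5, h6, h7, h8, h9, h10, h11, h12, h13, h14, h15, h16, h17, h18, h19,
    h20, h21⟩ := e
  rw [h1, h2, h3, h4, h5, h6, h7, h8, h9, h10, h11, h12, h13, h14, h15, h16, h17, h18, h19,
    h20, h21]
  ring

theorem valK_eq {T : Tab} {gens : Nat → List (List Nat)} {cert : List (Nat × List (List Nat))}
    (h : T.Good gens cert) (hX : ∀ t < T.NT, P.ckX T t = true) {t : Nat} (ht : t < T.NT)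
    {m : Nat} (hm : m < 2 ^ 35) : ((P.valK T t m : Nat) : ℤ) = P.HA T t m + P.OFF := by
  unfold valK HA
  have e2 : Nat.land (Nat.shiftRight m 10) 1023 = lk5 m := by
    rw [shift_div, Tab.land10]; rfl
  rw [e2, fc_eq]
  have hf : T.fi t (lk5 m) < T.nf t := h.fi_lt ht (lk5_lt _)
  set f := T.fi t (lk5 m) with hfd
  by_cases hx : P.xx t f = 0
  · rw [hx]
    have : Nat.beq 0 0 = true := rfl
    rw [this]
    change ((P.OFF : Nat) : ℤ) = _
    have h0 : ∀ a b, P.cA t f a b = 0 := fun a b => by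
      unfold cA
      rw [if_pos hx]
    simp only [h0, zero_mul, Finset.sum_const_zero, zero_add]
  · have hb : Nat.beq (P.xx t f) 0 = false := by
      cases hb : Nat.beq (P.xx t f) 0
      · rfl
      · exact absurd (Nat.eq_of_beq_eq_true hb) hx
    rw [hb]
    change ((fc (Nat.land (Nat.shiftRight m 20) 32767) fun y =>
      fc (Nat.mul 2 P.A) fun A2 =>
      fc (Nat.mul A2 P.OFE) fun c =>
      Nat.sub (wsum (fun _ => c) 15 y (fld (P.xx t f) 21))
        (Nat.mul A2 (wsum (fld (P.xx t f)) 15 y 0)) : Nat) : ℤ) = _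
    rw [fc_eq, fc_eq, fc_eq]
    have hy : Nat.land (Nat.shiftRight m 20) 32767 < 2 ^ 15 :=
      lt_of_le_of_lt Nat.and_le_right (by norm_num)
    rw [wsum_eq _ _ _ _ hy, wsum_eq _ _ _ _ hy, Nat.zero_add]
    have hck := ckX1_of (hX t ht) hf hx
    set X := P.xx t f with hXd
    simp only [ckX1, fc_eq, Bool.and_eq_true] at hck
    obtain ⟨⟨-, hc2⟩, hc3⟩ := hck
    have hc2 := Nat.eq_of_beq_eq_true hc2
    have hc3 := Nat.le_of_ble_eq_true hc3
    have hSC := SC_eq (P := P) (t := t) (f := f) hx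
    rw [← hXd] at hSC
    have hs : ∑ k ∈ range 15, (if (Nat.land (Nat.shiftRight m 20) 32767).testBit k = true then
        fld X k else 0) ≤ fsum X 15 := by
      rw [fsum_eq]
      exact sum_le_sum fun k _ => by split_ifs <;> omega
    have hle : Nat.mul (Nat.mul 2 P.A) (∑ k ∈ range 15,
        (if (Nat.land (Nat.shiftRight m 20) 32767).testBit k = true then fld X k else 0)) ≤
        fld X 21 + ∑ k ∈ range 15, (if (Nat.land (Nat.shiftRight m 20) 32767).testBit k = true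
          then Nat.mul (Nat.mul 2 P.A) P.OFE else 0) :=
      ((Nat.mul_le_mul_left _ hs).trans hc3).trans (Nat.le_add_right _ _)
    rw [Nat.sub_eq, Nat.cast_sub hle]
    have hc2' : (fld X 21 : ℤ) = P.OFF + P.B * P.SC t f := by
      have : ((Nat.add (fld X 21) (Nat.mul P.B (Nat.mul 36 P.OFE)) : Nat) : ℤ) =
        ((Nat.add P.OFF (Nat.mul P.B (Nat.add (fsum X 15) (fsum X 21))) : Nat) : ℤ) := by rw [hc2]
      simp only [Nat.add_eq, Nat.mul_eq] at this
      push_cast at this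
      rw [hSC]
      linarith
    have e3 : ∀ k < 15, (Nat.land (Nat.shiftRight m 20) 32767).testBit k = m.testBit (20 + k) :=
      bit6 m
    have e4 : ∑ k ∈ range 15, (if (Nat.land (Nat.shiftRight m 20) 32767).testBit k = true then
        fld X k else 0) = ∑ k ∈ range 15, (if m.testBit (20 + k) = true then fld X k else 0) :=
      sum_congr rfl fun k hk => by rw [e3 k (mem_range.1 hk)]
    have e5 : ∑ k ∈ range 15, (if (Nat.land (Nat.shiftRight m 20) 32767).testBit k = true then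
        Nat.mul (Nat.mul 2 P.A) P.OFE else 0) = ∑ k ∈ range 15,
        (if m.testBit (20 + k) = true then Nat.mul (Nat.mul 2 P.A) P.OFE else 0) :=
      sum_congr rfl fun k hk => by rw [e3 k (mem_range.1 hk)]
    rw [e4, e5]
    -- the right hand side
    have r1 : ∑ a ∈ range 6, ∑ b ∈ range 6, P.cA t f a b *
        ((P.B : ℤ) - P.A * (if b6 m a b = true then 1 else 0)) =
        P.B * P.SC t f - P.A * ∑ a ∈ range 6, ∑ b ∈ range 6, P.cA t f a b *
          (if b6 m a b = true then 1 else 0) := by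
      unfold SC
      rw [mul_sum, mul_sum, ← sum_sub_distrib]
      refine sum_congr rfl fun a _ => ?_
      rw [mul_sum, mul_sum, ← sum_sub_distrib]
      exact sum_congr rfl fun b _ => by ring
    have ixc : ∀ a < 6, ∀ b < 6, ixs a b 6 = ixs b a 6 := by decide +kernel
    have r2 : ∑ a ∈ range 6, ∑ b ∈ range 6, P.cA t f a b *
          (if b6 m a b = true then (1 : ℤ) else 0) =
        2 * ∑ k ∈ range 15, (if m.testBit (20 + k) = true then (fld X k : ℤ) - P.OFE else 0) := by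
      rw [sum66 _ (fun a ha b hb => by
        unfold b6
        rw [P.cA_comm t f a b, ixc a ha b hb])]
      have e : ix6 0 1 = 0 ∧ ix6 0 2 = 1 ∧ ix6 1 2 = 2 ∧ ix6 0 3 = 3 ∧ ix6 1 3 = 4 ∧ ix6 2 3 = 5 ∧
        ix6 0 4 = 6 ∧ ix6 1 4 = 7 ∧ ix6 2 4 = 8 ∧ ix6 3 4 = 9 ∧ ix6 0 5 = 10 ∧ ix6 1 5 = 11 ∧
        ix6 2 5 = 12 ∧ ix6 3 5 = 13 ∧ ix6 4 5 = 14 := by decide +kernel
      obtain ⟨h1, h2, h3, h4, h5, h6, h7, h8, h9, h10, h11, h12, h13, h14, h15⟩ := e
      have e' : ixs 0 1 6 = 20 + 0 ∧ ixs 0 2 6 = 20 + 1 ∧ ixs 1 2 6 = 20 + 2 ∧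
        ixs 0 3 6 = 20 + 3 ∧ ixs 1 3 6 = 20 + 4 ∧ ixs 2 3 6 = 20 + 5 ∧ ixs 0 4 6 = 20 + 6 ∧
        ixs 1 4 6 = 20 + 7 ∧ ixs 2 4 6 = 20 + 8 ∧ ixs 3 4 6 = 20 + 9 ∧ ixs 0 5 6 = 20 + 10 ∧
        ixs 1 5 6 = 20 + 11 ∧ ixs 2 5 6 = 20 + 12 ∧ ixs 3 5 6 = 20 + 13 ∧
        ixs 4 5 6 = 20 + 14 := by decide +kernel
      obtain ⟨k1, k2, k3, k4, k5, k6, k7, k8, k9, k10, k11, k12, k13, k14, k15⟩ := e'
      have d : ∀ a, b6 m a a = false := by
        intro a
        unfold b6
        have : ixs a a 6 = 35 := by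
          unfold ixs
          rw [if_neg (by omega), if_neg (by omega)]
        rw [this]
        exact Nat.testBit_eq_false_of_lt hm
      rw [d, d, d, d, d, d]
      unfold cA b6
      rw [k1, k2, k3, k4, k5, k6, k7, k8, k9, k10, k11, k12, k13, k14, k15]
      simp only [if_neg hx, h1, h2, h3, h4, h5, h6, h7, h8, h9, h10, h11, h12, h13, h14, h15,
        sum_range_succ, sum_range_zero, Bool.false_eq_true, if_false, mul_zero, ← hXd,
        mul_ite, mul_one]
      ring
    rw [r1, r2]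
    push_cast
    rw [hc2']
    have r3 : ∑ k ∈ range 15, (if m.testBit (20 + k) = true then (fld X k : ℤ) - P.OFE else 0) =
        ∑ k ∈ range 15, (if m.testBit (20 + k) = true then (fld X k : ℤ) else 0) -
        ∑ k ∈ range 15, (if m.testBit (20 + k) = true then (P.OFE : ℤ) else 0) := by
      rw [← sum_sub_distrib]
      exact sum_congr rfl fun k _ => by split_ifs <;> ring
    have r4 : ∑ k ∈ range 15, (if m.testBit (20 + k) = true then
        (((Nat.mul (Nat.mul 2 P.A) P.OFE : Nat)) : ℤ) else 0) = 2 * P.A *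
        ∑ k ∈ range 15, (if m.testBit (20 + k) = true then (P.OFE : ℤ) else 0) := by
      rw [mul_sum]
      refine sum_congr rfl fun k _ => ?_
      split_ifs
      · simp only [Nat.mul_eq]; push_cast; ring
      · ring
    have r5 : (((Nat.mul (Nat.mul 2 P.A) (∑ k ∈ range 15, (if m.testBit (20 + k) = true then
        fld X k else 0)) : Nat)) : ℤ) = 2 * P.A *
        ∑ k ∈ range 15, (if m.testBit (20 + k) = true then (fld X k : ℤ) else 0) := by
      simp only [Nat.mul_eq]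
      push_cast
      rfl
    rw [r3, r4, r5]
    ring

theorem slK_eq {T : Tab} {gens : Nat → List (List Nat)} {cert : List (Nat × List (List Nat))}
    (h : T.Good gens cert) (hX : ∀ t < T.NT, P.ckX T t = true) {t : Nat} (ht : t < T.NT)
    (m : Nat) : ((P.slK T t m : Nat) : ℤ) = P.HC T t m + P.OFF := by
  unfold slK HC
  have e2 : Nat.land (Nat.shiftRight m 10) 1023 = lk5 m := by
    rw [shift_div, Tab.land10]; rfl
  rw [e2, fc_eq]
  have hf : T.fi t (lk5 m) < T.nf t := h.fi_lt ht (lk5_lt _)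
  set f := T.fi t (lk5 m) with hfd
  by_cases hx : P.xx t f = 0
  · rw [hx]
    have : Nat.beq 0 0 = true := rfl
    rw [this]
    change ((P.OFF : Nat) : ℤ) = _
    have h0 : ∀ a b, P.cA t f a b = 0 := fun a b => by
      unfold cA
      rw [if_pos hx]
    unfold SC
    simp only [h0, Finset.sum_const_zero, zero_add]
  · have hb : Nat.beq (P.xx t f) 0 = false := by
      cases hb : Nat.beq (P.xx t f) 0
      · rfl
      · exact absurd (Nat.eq_of_beq_eq_true hb) hx
    rw [hb]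
    change ((fld (P.xx t f) 22 : Nat) : ℤ) = _
    have hck := ckX1_of (hX t ht) hf hx
    simp only [ckX1, fc_eq, Bool.and_eq_true] at hck
    obtain ⟨⟨hc1, -⟩, -⟩ := hck
    have hc1 := Nat.eq_of_beq_eq_true hc1
    have hSC := SC_eq (P := P) (t := t) (f := f) hx
    have : ((Nat.add (fld (P.xx t f) 22) (Nat.mul 36 P.OFE) : Nat) : ℤ) =
      ((Nat.add P.OFF (Nat.add (fsum (P.xx t f) 15) (fsum (P.xx t f) 21)) : Nat) : ℤ) := by
      rw [hc1]
    simp only [Nat.add_eq, Nat.mul_eq] at this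
    push_cast at this
    rw [hSC]
    linarith

theorem GA_tau5 {T : Tab} {gens : Nat → List (List Nat)} {cert : List (Nat × List (List Nat))}
    (h : T.Good gens cert) {m : Nat} (hm : m < 2 ^ 35) :
    P.GA T (tau 5 m) = P.HA T (T.ty (rt m)) (tau 5 (awl (T.wr (rt m)) m)) := by
  unfold GA Tab.lift
  rw [rt_tau5, awl_tau5 (h.w4r (rt_lt m)) hm]

theorem GC_tau5 {T : Tab} {gens : Nat → List (List Nat)} {cert : List (Nat × List (List Nat))}
    (h : T.Good gens cert) {m : Nat} (hm : m < 2 ^ 35) :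
    P.GC T (tau 5 m) = P.HC T (T.ty (rt m)) (tau 5 (awl (T.wr (rt m)) m)) := by
  unfold GC Tab.lift
  rw [rt_tau5, awl_tau5 (h.w4r (rt_lt m)) hm]

/-- The kernel value of the integrand. -/
theorem h6K_eq {T : Tab} {gens : Nat → List (List Nat)} {cert : List (Nat × List (List Nat))}
    (h : T.Good gens cert) (hX : ∀ t < T.NT, P.ckX T t = true) {m : Nat} (hm : m < 2 ^ 35) :
    ((P.h6K T m : Nat) : ℤ) = P.H6 T m + 2 * P.OFF := by
  unfold h6K H6
  simp only [fc_eq]
  rw [Tab.land10, awN_eq, GA_tau5 h hm]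
  have ht : T.ty (rt m) < T.NT := h.tyr (rt_lt m)
  change ((P.valK T (T.ty (rt m)) (awl (T.wr (rt m)) m) +
    P.valK T (T.ty (rt m)) (tau 5 (awl (T.wr (rt m)) m)) : Nat) : ℤ) = _
  rw [Nat.cast_add, valK_eq h hX ht (awl_lt _ hm), valK_eq h hX ht (tau_lt _ _)]
  unfold GA Tab.lift
  ring

/-- The kernel value of the slope. -/
theorem k6K_eq {T : Tab} {gens : Nat → List (List Nat)} {cert : List (Nat × List (List Nat))}
    (h : T.Good gens cert) (hX : ∀ t < T.NT, P.ckX T t = true) {m : Nat} (hm : m < 2 ^ 35) :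
    ((P.k6K T m : Nat) : ℤ) = P.K6 T m + 2 * P.OFF := by
  unfold k6K K6
  simp only [fc_eq]
  rw [Tab.land10, awN_eq, GC_tau5 h hm]
  have ht : T.ty (rt m) < T.NT := h.tyr (rt_lt m)
  change ((P.slK T (T.ty (rt m)) (awl (T.wr (rt m)) m) +
    P.slK T (T.ty (rt m)) (tau 5 (awl (T.wr (rt m)) m)) : Nat) : ℤ) = _
  rw [Nat.cast_add, slK_eq h hX ht, slK_eq h hX ht]
  unfold GC Tab.lift
  ring

end ATab

end KC
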