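import Pool.Agent.Helper85.KV.A4

set_option autoImplicit false

/-!
The family (HA6): check of positive semidefiniteness by a factorisation with a diagonally
dominant remainder.
-/

namespace KC

open KF Finset

/-- Symmetric diagonally dominant tables are positive semidefinite. -/
theorem psd_of_dd {n : ℕ} {e : ℕ → ℕ → ℝ} (se : ∀ a < n, ∀ b < n, e a b = e b a)
    (hd : ∀ a < n, ∑ b ∈ range n, (if b = a then 0 else |e a b|) ≤ e a a) : Psd n e := by
  intro f
  have h1 : ∀ a ∈ range n, ∀ b ∈ range n, (if b = a then e a a * f a ^ 2 else 0) -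
      (if b = a then 0 else |e a b|) * (f a ^ 2 + f b ^ 2) / 2 ≤ e a b * f a * f b := by
    intro a _ b _
    by_cases h : b = a
    · subst h
      simp only [if_true, zero_mul, zero_div, sub_zero]
      nlinarith
    · simp only [h, if_false]
      have h2 : |e a b * f a * f b| ≤ |e a b| * ((f a ^ 2 + f b ^ 2) / 2) := by
        rw [mul_assoc, abs_mul]
        refine mul_le_mul_of_nonneg_left ?_ (abs_nonneg _)
        rw [abs_le]
        constructor <;> nlinarith [sq_nonneg (f a + f b), sq_nonneg (f a - f b)]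
      have h3 := neg_abs_le (e a b * f a * f b)
      linarith
  have h2 : ∑ a ∈ range n, ∑ b ∈ range n, ((if b = a then e a a * f a ^ 2 else 0) -
      (if b = a then 0 else |e a b|) * (f a ^ 2 + f b ^ 2) / 2) ≤
      ∑ a ∈ range n, ∑ b ∈ range n, e a b * f a * f b :=
    sum_le_sum fun a ha => sum_le_sum fun b hb => h1 a ha b hb
  refine le_trans ?_ h2
  -- the two halves agree
  have h3 : ∑ a ∈ range n, ∑ b ∈ range n, (if b = a then 0 else |e a b|) * f b ^ 2 =
      ∑ a ∈ range n, ∑ b ∈ range n, (if b = a then 0 else |e a b|) * f a ^ 2 := by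
    rw [sum_comm]
    refine sum_congr rfl fun a ha => sum_congr rfl fun b hb => ?_
    rw [se b (mem_range.1 hb) a (mem_range.1 ha)]
    by_cases h : a = b
    · subst h; rfl
    · rw [if_neg h, if_neg (Ne.symm h)]
  have h4 : ∑ a ∈ range n, ∑ b ∈ range n, ((if b = a then e a a * f a ^ 2 else 0) -
      (if b = a then 0 else |e a b|) * (f a ^ 2 + f b ^ 2) / 2) =
      ∑ a ∈ range n, (e a a - ∑ b ∈ range n, (if b = a then 0 else |e a b|)) * f a ^ 2 := by
    have e1 : ∀ a ∈ range n, ∑ b ∈ range n, ((if b = a then e a a * f a ^ 2 else 0) -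
      (if b = a then 0 else |e a b|) * (f a ^ 2 + f b ^ 2) / 2) =
      e a a * f a ^ 2 - (∑ b ∈ range n, (if b = a then 0 else |e a b|) * f a ^ 2) / 2 -
      (∑ b ∈ range n, (if b = a then 0 else |e a b|) * f b ^ 2) / 2 := by
      intro a ha
      rw [sum_sub_distrib, sum_ite_eq' (range n) a, if_pos ha, sum_div, sum_div, sub_sub,
        ← sum_add_distrib]
      congr 1
      exact sum_congr rfl fun b _ => by ring
    rw [sum_congr rfl e1, sum_sub_distrib, sum_sub_distrib, ← sum_div, ← sum_div, h3]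
    rw [sub_sub, ← sub_eq_zero]
    have e2 : ∑ a ∈ range n, (e a a - ∑ b ∈ range n, (if b = a then 0 else |e a b|)) * f a ^ 2 =
        ∑ a ∈ range n, e a a * f a ^ 2 -
        ∑ a ∈ range n, ∑ b ∈ range n, (if b = a then 0 else |e a b|) * f a ^ 2 := by
      rw [← sum_sub_distrib]
      exact sum_congr rfl fun a _ => by rw [sub_mul, sum_mul]
    rw [e2]
    ring
  rw [h4]
  exact sum_nonneg fun a ha => mul_nonneg (by linarith [hd a (mem_range.1 ha)]) (sq_nonneg _)

/-- A factorisation with a positive semidefinite remainder. -/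
theorem psd_of_fac {n m : ℕ} {c e : ℕ → ℕ → ℝ} {r : ℕ → ℕ → ℝ} {s : ℝ} (hs : 0 < s)
    (he : Psd n e) (h : ∀ a < n, ∀ b < n, s * c a b = ∑ k ∈ range m, r a k * r b k + e a b) :
    Psd n c := by
  intro f
  have h1 := he f
  have h2 : s * ∑ a ∈ range n, ∑ b ∈ range n, c a b * f a * f b =
      ∑ k ∈ range m, (∑ a ∈ range n, r a k * f a) ^ 2 +
      ∑ a ∈ range n, ∑ b ∈ range n, e a b * f a * f b := by
    have e1 : ∑ k ∈ range m, (∑ a ∈ range n, r a k * f a) ^ 2 =
        ∑ a ∈ range n, ∑ b ∈ range n, (∑ k ∈ range m, r a k * r b k) * f a * f b := by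
      have : ∀ k, (∑ a ∈ range n, r a k * f a) ^ 2 =
          ∑ a ∈ range n, ∑ b ∈ range n, r a k * r b k * f a * f b := by
        intro k
        rw [sq, sum_mul_sum]
        exact sum_congr rfl fun a _ => sum_congr rfl fun b _ => by ring
      simp only [this]
      rw [sum_comm]
      refine sum_congr rfl fun a _ => ?_
      rw [sum_comm]
      refine sum_congr rfl fun b _ => ?_
      rw [sum_mul, sum_mul]
    rw [e1, mul_sum, ← sum_add_distrib]
    refine sum_congr rfl fun a ha => ?_
    rw [mul_sum, ← sum_add_distrib]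
    refine sum_congr rfl fun b hb => ?_
    have := h a (mem_range.1 ha) b (mem_range.1 hb)
    calc s * (c a b * f a * f b) = (s * c a b) * f a * f b := by ring
      _ = _ := by rw [this]; ring
  have h3 : 0 ≤ ∑ k ∈ range m, (∑ a ∈ range n, r a k * f a) ^ 2 :=
    sum_nonneg fun k _ => sq_nonneg _
  have h4 : 0 ≤ s * ∑ a ∈ range n, ∑ b ∈ range n, c a b * f a * f b := by
    rw [h2]; linarith
  exact nonneg_of_mul_nonneg_right h4 hs

/-- Tables of the factors: lower triangular, entries with offset `Q` in fields of 96 bits;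
`SH` is the scale. -/
structure RTab where
  Q : Nat
  SH : Nat
  YT : BT

namespace RTab

variable (R : RTab)

/-- Entry of a factor, with offset. -/
noncomputable def rho (Y a k : Nat) : Nat :=
  Bool.rec (motive := fun _ => Nat) R.Q (fld Y (Nat.add (Nat.div (Nat.mul a (Nat.succ a)) 2) k))
    (Nat.ble k a)

/-- Sum of the products. -/
noncomputable def dot (Y a b : Nat) : Nat :=
  Nat.rec (motive := fun _ => Nat) 0
    (fun k ih => Nat.add ih (Nat.mul (R.rho Y a k) (R.rho Y b k))) 6

/-- Sum of a row. -/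
noncomputable def sig (Y a : Nat) : Nat :=
  Nat.rec (motive := fun _ => Nat) 0 (fun k ih => Nat.add ih (R.rho Y a k)) 6

theorem dot_eq (Y a b : Nat) : R.dot Y a b = ∑ k ∈ range 6, R.rho Y a k * R.rho Y b k := by
  simp only [sum_range_succ, sum_range_zero]
  rfl

theorem sig_eq (Y a : Nat) : R.sig Y a = ∑ k ∈ range 6, R.rho Y a k := by
  simp only [sum_range_succ, sum_range_zero]
  rfl

/-- Remainder: the positive part. -/
noncomputable def pp (X Y a b : Nat) : Nat :=
  Nat.add (Nat.mul R.SH (fld X (ATab.ix6 a b))) (Nat.mul R.Q (Nat.add (R.sig Y a) (R.sig Y b)))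

/-- Remainder: the negative part. -/
noncomputable def mm (OFE Y a b : Nat) : Nat :=
  Nat.add (Nat.mul R.SH OFE) (Nat.add (R.dot Y a b) (Nat.mul 6 (Nat.mul R.Q R.Q)))

/-- Absolute value of an entry of the remainder. -/
noncomputable def ab (OFE X Y a b : Nat) : Nat :=
  fc (R.pp X Y a b) fun p => fc (R.mm OFE Y a b) fun m => Nat.add (Nat.sub p m) (Nat.sub m p)

/-- Sum of the absolute values of the entries off the diagonal. -/
noncomputable def offs (OFE X Y a : Nat) : Nat :=
  Nat.rec (motive := fun _ => Nat) 0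
    (fun b ih => Nat.add ih (Bool.rec (motive := fun _ => Nat) (R.ab OFE X Y a b) 0
      (Nat.beq b a))) 6

/-- Check of one matrix. -/
noncomputable def ckD (OFE X Y : Nat) : Bool :=
  Nat.rec (motive := fun _ => Bool) true
    (fun a ih => Bool.rec (motive := fun _ => Bool) false ih
      (Nat.ble (Nat.add (R.offs OFE X Y a) (R.mm OFE Y a a)) (R.pp X Y a a))) 6

theorem offs_eq (OFE X Y a : Nat) : R.offs OFE X Y a =
    ∑ b ∈ range 6, (if b = a then 0 else R.ab OFE X Y a b) := by
  have h : ∀ n, (Nat.rec (motive := fun _ => Nat) 0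
    (fun b ih => Nat.add ih (Bool.rec (motive := fun _ => Nat) (R.ab OFE X Y a b) 0
      (Nat.beq b a))) n : Nat) = ∑ b ∈ range n, (if b = a then 0 else R.ab OFE X Y a b) := by
    intro n
    induction n with
    | zero => rfl
    | succ n ih =>
      rw [sum_range_succ, ← ih]
      change Nat.add _ _ = _
      congr 1
      by_cases h : n = a
      · subst h
        rw [Nat.beq_refl, if_pos rfl]
      · have : Nat.beq n a = false := by
          cases hb : Nat.beq n a
          · rfl
          · exact absurd (Nat.eq_of_beq_eq_true hb) h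
        rw [this, if_neg h]
  exact h 6

theorem ckD_spec {OFE X Y : Nat} (h : R.ckD OFE X Y = true) : ∀ a < 6,
    R.offs OFE X Y a + R.mm OFE Y a a ≤ R.pp X Y a a := by
  have g : ∀ n, (Nat.rec (motive := fun _ => Bool) true
    (fun a ih => Bool.rec (motive := fun _ => Bool) false ih
      (Nat.ble (Nat.add (R.offs OFE X Y a) (R.mm OFE Y a a)) (R.pp X Y a a))) n : Bool) = true →
      ∀ a < n, R.offs OFE X Y a + R.mm OFE Y a a ≤ R.pp X Y a a := by
    intro n
    induction n with
    | zero => intro _ a ha; omega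
    | succ n ih =>
      intro h a ha
      change Bool.rec (motive := fun _ => Bool) false _
        (Nat.ble (Nat.add (R.offs OFE X Y n) (R.mm OFE Y n n)) (R.pp X Y n n)) = true at h
      cases hb : Nat.ble (Nat.add (R.offs OFE X Y n) (R.mm OFE Y n n)) (R.pp X Y n n)
      · rw [hb] at h; exact absurd h (by simp)
      · rw [hb] at h
        rcases Nat.lt_succ_iff_lt_or_eq.1 ha with h1 | h1
        · exact ih h a h1
        · rw [h1]; exact Nat.le_of_ble_eq_true hb
  exact g 6 h

/-- Entry of a factor. -/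
noncomputable def rr (Y a k : Nat) : ℤ := (R.rho Y a k : ℤ) - R.Q

/-- Entry of the remainder. -/
noncomputable def ee (OFE X Y a b : Nat) : ℤ := (R.pp X Y a b : ℤ) - R.mm OFE Y a b

theorem ee_eq (OFE X Y a b : Nat) : (R.SH : ℤ) * ((fld X (ATab.ix6 a b) : ℤ) - OFE) =
    ∑ k ∈ range 6, R.rr Y a k * R.rr Y b k + R.ee OFE X Y a b := by
  unfold ee pp mm rr
  simp only [Nat.add_eq, Nat.mul_eq]
  rw [dot_eq, sig_eq, sig_eq]
  push_cast
  simp only [sum_range_succ, sum_range_zero]
  ring

theorem ab_eq (OFE X Y a b : Nat) : ((R.ab OFE X Y a b : Nat) : ℤ) = |R.ee OFE X Y a b| := by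
  unfold ab ee
  rw [fc_eq, fc_eq]
  simp only [Nat.add_eq, Nat.sub_eq]
  rcases le_total (R.pp X Y a b) (R.mm OFE Y a b) with h | h
  · rw [Nat.sub_eq_zero_of_le h, Nat.zero_add, Nat.cast_sub h, abs_of_nonpos]
    · ring
    · have : (R.pp X Y a b : ℤ) ≤ R.mm OFE Y a b := by exact_mod_cast h
      linarith
  · rw [Nat.sub_eq_zero_of_le h, Nat.add_zero, Nat.cast_sub h, abs_of_nonneg]
    have : (R.mm OFE Y a b : ℤ) ≤ R.pp X Y a b := by exact_mod_cast h
    linarith

theorem ee_comm (OFE X Y a b : Nat) : R.ee OFE X Y a b = R.ee OFE X Y b a := by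
  unfold ee pp mm
  rw [ATab.ix6_comm a b, dot_eq, dot_eq]
  have : ∑ k ∈ range 6, R.rho Y a k * R.rho Y b k = ∑ k ∈ range 6, R.rho Y b k * R.rho Y a k :=
    sum_congr rfl fun k _ => Nat.mul_comm _ _
  rw [this]
  simp only [Nat.add_eq, Nat.mul_eq]
  push_cast
  ring

theorem psd_of_ckD {OFE X Y : Nat} (hS : 0 < R.SH) (h : R.ckD OFE X Y = true) :
    Psd 6 (fun a b => (((fld X (ATab.ix6 a b) : ℤ) - OFE : ℤ) : ℝ)) := by
  refine psd_of_fac (s := (R.SH : ℝ)) (m := 6) (e := fun a b => ((R.ee OFE X Y a b : ℤ) : ℝ))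
    (r := fun a k => ((R.rr Y a k : ℤ) : ℝ)) (by exact_mod_cast hS) ?_ ?_
  · refine psd_of_dd (fun a _ b _ => by rw [ee_comm]) fun a ha => ?_
    have h1 := R.ckD_spec h a ha
    rw [offs_eq] at h1
    have h2 : ((∑ b ∈ range 6, (if b = a then 0 else R.ab OFE X Y a b) : ℕ) : ℤ) +
        R.mm OFE Y a a ≤ R.pp X Y a a := by exact_mod_cast h1
    have h3 : ((∑ b ∈ range 6, (if b = a then 0 else R.ab OFE X Y a b) : ℕ) : ℤ) ≤
        R.ee OFE X Y a a := by
      unfold ee
      linarith
    have h4 : ∑ b ∈ range 6, (if b = a then 0 else |((R.ee OFE X Y a b : ℤ) : ℝ)|) =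
        ((((∑ b ∈ range 6, (if b = a then 0 else R.ab OFE X Y a b) : ℕ) : ℤ)) : ℝ) := by
      push_cast
      refine sum_congr rfl fun b _ => ?_
      split_ifs
      · rfl
      · have := R.ab_eq OFE X Y a b
        have h5 : (((R.ab OFE X Y a b : ℕ) : ℤ) : ℝ) = ((|R.ee OFE X Y a b| : ℤ) : ℝ) := by
          rw [this]
        rw [Int.cast_abs] at h5
        rw [← h5]
        push_cast
        rfl
    rw [h4]
    exact_mod_cast h3
  · intro a _ b _
    have h1 := R.ee_eq OFE X Y a b
    have h2 : (((R.SH : ℤ) * ((fld X (ATab.ix6 a b) : ℤ) - OFE) : ℤ) : ℝ) =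
      ((∑ k ∈ range 6, R.rr Y a k * R.rr Y b k + R.ee OFE X Y a b : ℤ) : ℝ) := by rw [h1]
    push_cast at h2 ⊢
    exact h2

end RTab

namespace ATab

variable (P : ATab)

/-- Check of positive semidefiniteness of all the matrices of a type. -/
noncomputable def ckP (R : RTab) (T : Tab) (t : Nat) : Bool :=
  (List.range (T.nf t)).all fun f =>
    fc (P.xx t f) fun X => Bool.rec (motive := fun _ => Bool)
      (fc (R.YT.get (Nat.add (Nat.mul t 512) f)) fun Y => R.ckD P.OFE X Y) true (Nat.beq X 0)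

theorem psd_of_ckP {R : RTab} (hS : 0 < R.SH) {T : Tab} {t : Nat} (h : P.ckP R T t = true) :
    ∀ f < T.nf t, Psd 6 (fun a b => ((P.cA t f a b : ℤ) : ℝ)) := by
  intro f hf
  simp only [ckP, List.all_eq_true, List.mem_range, fc_eq] at h
  have h1 := h f hf
  cases hb : Nat.beq (P.xx t f) 0
  · rw [hb] at h1
    have hx : ¬ P.xx t f = 0 := fun e => by rw [e] at hb; exact absurd hb (by decide)
    have h2 := R.psd_of_ckD hS (OFE := P.OFE) (X := P.xx t f) h1
    unfold cA
    simp only [hx, if_false]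
    exact h2
  · have hx := Nat.eq_of_beq_eq_true hb
    intro x
    unfold cA
    simp only [hx, if_true, Int.cast_zero, zero_mul, Finset.sum_const_zero, le_refl]

end ATab

end KC
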