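import Pool.Agent.Helper13.KC.S5b

set_option autoImplicit false

/-!
Terms with five roots that also read the five triples (root, 5, 6): invariance from the canonical
labelling of the roots, and the family (N) of multi-swap links.
-/

namespace KC

open KF

namespace Tab

variable {T : Tab} {gens : Nat → List (List Nat)} {cert : List (Nat × List (List Nat))}

/-- A function on canonically labelled masks, used for all labelled masks. -/
noncomputable def lift (T : Tab) (H : Nat → Nat → ℤ) (m : Nat) : ℤ :=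
  H (T.ty (rt m)) (awl (T.wr (rt m)) m)

theorem lift_flat (h : T.Good gens cert) {H : Nat → Nat → ℤ} {t : Nat} (ht : t < T.NT)
    (hH : ∀ W ∈ gens t, ∀ m, Adm m → rt m = T.sg t → H t (awl W m) = H t m) :
    ∀ (l : List Nat) {m : Nat}, Adm m → rt m = T.sg t →
    H t (awl (flat (gens t) l) m) = H t m
  | [], _, _, _ => rfl
  | k :: l, m, hm, hr => by
    rw [flat, awl_append]
    by_cases hk : k < (gens t).length
    · have hmem : (gens t).getD k [] ∈ gens t := by
        rw [List.getD_eq_getElem _ _ hk]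
        exact List.getElem_mem hk
      have h5 := h.c5 t ht
      simp only [ck5, List.all_eq_true, Bool.and_eq_true] at h5
      obtain ⟨hw4, hfix⟩ := h5 _ hmem
      have h2 : rt (awl ((gens t).getD k []) m) = T.sg t := by
        rw [rt_awl _ _ hw4, hr]
        exact Nat.eq_of_beq_eq_true hfix
      have h3 : Adm (awl ((gens t).getD k []) m) := adm_awl _ (w4_wok hw4) hm
      rw [lift_flat h ht hH l h3 h2, hH _ hmem m hm hr]
    · rw [List.getD_eq_default _ _ (by omega)]
      exact lift_flat h ht hH l hm hr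

theorem lift_tau (h : T.Good gens cert) {H : Nat → Nat → ℤ}
    (hH : ∀ t < T.NT, ∀ W ∈ gens t, ∀ m, Adm m → rt m = T.sg t → H t (awl W m) = H t m)
    {m : Nat} (hm : Adm m) {j : Nat} (hj : j < 4) :
    T.lift H (tau j m) = T.lift H m := by
  have h3 := h.c3
  simp only [ck3, List.all_eq_true, List.mem_range] at h3
  have h3' := h3 (rt m) (rt_lt m)
  rw [vio0_rt hm, Bool.false_or, List.any_eq_true] at h3'
  obtain ⟨c, hc, hcr⟩ := h3'
  have hcr := Nat.eq_of_beq_eq_true hcr
  have h2 := h.c2
  simp only [ck2, List.all_eq_true, Bool.and_eq_true, List.mem_range] at h2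
  obtain ⟨h4, h5⟩ := h2 c hc
  obtain ⟨h6, h7⟩ := h5 j hj
  rw [← hcr] at h4 h6 h7
  have h4 := Nat.eq_of_beq_eq_true h4
  have h6 := Nat.eq_of_beq_eq_true h6
  have hty := h.tyr (rt_lt m)
  rw [← rt_tau j m hj] at h6 h7
  have hw := h.w4r (rt_lt m)
  have hw' := h.w4r (rt_lt (tau j m))
  have e : awl (T.wr (rt (tau j m))) (tau j m) =
      awl (T.wr (rt m) ++ flat (gens (T.ty (rt m))) (c.2.getD j [])) m :=
    awl_of_eq7 (l := j :: T.wr (rt (tau j m))) (wok_cons.2 ⟨by omega, w4_wok hw'⟩)
      (wok_append (w4_wok hw) (wok_flat (wok_gens h hty) _)) h7 hm.lt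
  rw [lift, lift, h6, e, awl_append]
  refine lift_flat h hty (hH _ hty) _ (adm_awl _ (w4_wok hw) hm) ?_
  rw [rt_awl _ _ hw, h4]

end Tab

/-! The triples (root, 5, 6). -/

/-- Images of small vertices under words in the first four letters. -/
theorem swF_small : ∀ i < 4, ∀ a : Fin 7, (a.1 < 5 → (swF i a).1 < 5) ∧ (swF i 5 = 5) ∧
    (swF i 6 = 6) := by decide +kernel

theorem vw_small : ∀ (W : List Nat), w4 W = true → (∀ a : Fin 7, a.1 < 5 → (vw W a).1 < 5) ∧
    vw W 5 = 5 ∧ vw W 6 = 6
  | [], _ => ⟨fun _ h => h, rfl, rfl⟩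
  | i :: W, h => by
    obtain ⟨h1, h2⟩ := w4_cons.1 h
    obtain ⟨k1, k2, k3⟩ := vw_small W h2
    have e : ∀ a, vw (i :: W) a = swF i (vw W a) := fun a => rfl
    refine ⟨fun a ha => ?_, ?_, ?_⟩
    · rw [e]; exact (swF_small i h1 _).1 (k1 a ha)
    · rw [e, k2]; exact (swF_small i h1 0).2.1
    · rw [e, k3]; exact (swF_small i h1 0).2.2

theorem ixs_j56 : ∀ a : Fin 7, a.1 < 5 → ixs a.1 5 6 = 30 + a.1 := by decide +kernel

/-- The vertex permutation on the roots, as a number. -/
def vn (W : List Nat) (j : Nat) : Nat := (vw W (f7 j)).1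

theorem vn_lt {W : List Nat} (h : w4 W = true) {j : Nat} (hj : j < 5) : vn W j < 5 := by
  refine (vw_small W h).1 _ ?_
  unfold f7
  change j % 7 < 5
  omega

theorem bit_awl {W : List Nat} (h : w4 W = true) {m : Nat} (hm : m < 2 ^ 35) {j : Nat}
    (hj : j < 5) : (awl W m).testBit (30 + j) = m.testBit (30 + vn W j) := by
  have h1 := awl_bt W (w4_wok h) hm (f7 j) 5 6
  obtain ⟨-, k2, k3⟩ := vw_small W h
  rw [k2, k3] at h1
  unfold bt at h1
  have e1 : (f7 j).1 = j := by unfold f7; change j % 7 = j; omega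
  have e2 := ixs_j56 (f7 j) (by omega)
  have e3 := ixs_j56 (vw W (f7 j)) (vn_lt h hj)
  change (awl W m).testBit (ixs (f7 j).1 5 6) = m.testBit (ixs (vw W (f7 j)).1 5 6) at h1
  rw [e2, e3, e1] at h1
  exact h1

theorem bit_tau5 (m : Nat) {j : Nat} (hj : j < 5) :
    (tau 5 m).testBit (30 + j) = m.testBit (30 + j) := by
  rw [tau_bit 5 m _ (by norm_num) (by omega)]
  have : ∀ j < 5, ba 5 (30 + j) = 30 + j := by decide +kernel
  rw [this j hj]

/-! The tables of the family (N). -/

/-- Tables: the value `B / A` of the bound, number of terms, total weights, weights, and for each flag the five sets of terms whose root index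
is `0, 1, 2, 3, 4`, packed in fields of 64 bits. -/
structure NTab where
  A : Nat
  B : Nat
  K : Nat
  MT : Nat
  MU : BT
  KB : BT

namespace NTab

variable (N : NTab)

/-- Number of terms of a type. -/
def kn (t : Nat) : Nat := ent N.K 16 65535 t
/-- Weight of a term. -/
noncomputable def mu (t k : Nat) : Nat := pk N.MU 64 18446744073709551615 (Nat.add (Nat.mul t 64) k)
/-- The packed sets of a flag. -/
noncomputable def kb (t f : Nat) : Nat := N.KB.get (Nat.add (Nat.mul t 512) f)
/-- Field of 64 bits. -/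
def f64 (X j : Nat) : Nat := Nat.land (Nat.shiftRight X (Nat.mul 64 j)) 18446744073709551615
/-- Is the root index of the term `k` at the flag `f` equal to `j`? -/
noncomputable def bj (t f j k : Nat) : Bool := (N.kb t f).testBit (64 * j + k)
/-- The root index of the term `k` at the flag `f`. -/
noncomputable def ka (t f k : Nat) : Nat :=
  if N.bj t f 0 k then 0 else if N.bj t f 1 k then 1 else if N.bj t f 2 k then 2 else
  if N.bj t f 3 k then 3 else 4

/-- The sum of all weights. -/
noncomputable def mt (t : Nat) : Nat := ((List.range (N.kn t)).map (N.mu t)).sum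

/-- One term, on canonically labelled masks. -/
noncomputable def term (T : Tab) (t m k : Nat) : ℤ :=
  (N.mu t k : ℤ) * (N.B - N.A * (if (N.ka t (T.fi t (lk5 m)) k = N.ka t (T.fi t (lk6 m)) k ∧
    m.testBit (30 + N.ka t (T.fi t (lk5 m)) k) = true) then 1 else 0))

/-- The integrand on canonically labelled masks. -/
noncomputable def HN (T : Tab) (t m : Nat) : ℤ :=
  ((List.range (N.kn t)).map (N.term T t m)).sum

/-- The integrand. -/
noncomputable def GN (T : Tab) (m : Nat) : ℤ := T.lift (N.HN T) m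

/-- The tables at a generator: `p` is the permutation of the terms. -/
noncomputable def ckP (T : Tab) (t : Nat) (W p : List Nat) : Bool :=
  p.isPerm (List.range (N.kn t)) &&
    ((List.range (N.kn t)).all fun k => Nat.beq (N.mu t (p.getD k 0)) (N.mu t k)) &&
    ((List.range (T.nf t)).all fun f => (List.range (N.kn t)).all fun k =>
      Nat.beq (vn W (N.ka t (T.fi t (al5 W (T.fl t f))) k)) (N.ka t f (p.getD k 0)))

theorem ka_lt (t f k : Nat) : N.ka t f k < 5 := by
  unfold ka
  split_ifs <;> norm_num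

theorem vn_inj {W : List Nat} (h : w4 W = true) {i j : Nat} (hi : i < 5) (hj : j < 5)
    (e : vn W i = vn W j) : i = j := by
  have h1 : vw W (f7 i) = vw W (f7 j) := Fin.ext e
  have inj : ∀ (W : List Nat), wok W = true → Function.Injective (vw W) := by
    intro W
    induction W with
    | nil => intro _ a b hab; exact hab
    | cons i W ih =>
      intro h a b hab
      obtain ⟨h1, h2⟩ := wok_cons.1 h
      exact ih h2 (swF_inj i h1 hab)
  have h2 := inj W (w4_wok h) h1
  have h3 : (f7 i).1 = (f7 j).1 := by rw [h2]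
  unfold f7 at h3
  change i % 7 = j % 7 at h3
  omega

theorem HN_gen {T : Tab} {gens : Nat → List (List Nat)} {cert : List (Nat × List (List Nat))}
    (h : T.Good gens cert) (hN : ∀ t < T.NT, ∀ W ∈ gens t, ∃ p, N.ckP T t W p = true)
    {t : Nat} (ht : t < T.NT) {W : List Nat} (hW : W ∈ gens t) {m : Nat} (hm : Adm m)
    (hr : rt m = T.sg t) : N.HN T t (awl W m) = N.HN T t m := by
  have h5 := h.c5 t ht
  simp only [Tab.ck5, List.all_eq_true, Bool.and_eq_true] at h5
  obtain ⟨hw4, -⟩ := h5 W hW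
  obtain ⟨p, hp⟩ := hN t ht W hW
  simp only [ckP, Bool.and_eq_true, List.all_eq_true, List.mem_range] at hp
  obtain ⟨⟨hp1, hp2⟩, hp3⟩ := hp
  have a1 := h.fl_fi ht (lk5_lt m) (by rw [← hr]; exact vio_lk5 hm)
  have a2 := h.fl_fi ht (lk6_lt m) (by rw [← hr]; exact vio_lk6 hm)
  have perm : List.Perm p (List.range (N.kn t)) := List.isPerm_iff.1 hp1
  have key : ∀ k ∈ List.range (N.kn t), N.term T t (awl W m) k =
      N.term T t m (p.getD k 0) := by
    intro k hk
    have hk' := List.mem_range.1 hk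
    have e1 := Nat.eq_of_beq_eq_true (hp2 k hk')
    have e2 := Nat.eq_of_beq_eq_true (hp3 _ (h.fi_lt ht (lk5_lt m)) k hk')
    have e3 := Nat.eq_of_beq_eq_true (hp3 _ (h.fi_lt ht (lk6_lt m)) k hk')
    rw [a1] at e2
    rw [a2] at e3
    unfold term
    rw [lk5_awl _ _ hw4, lk6_awl _ _ hw4, e1, ← e2, ← e3]
    rw [bit_awl hw4 hm.lt (N.ka_lt _ _ _)]
    have e4 : (N.ka t (T.fi t (al5 W (lk5 m))) k = N.ka t (T.fi t (al5 W (lk6 m))) k) ↔
        (vn W (N.ka t (T.fi t (al5 W (lk5 m))) k) = vn W (N.ka t (T.fi t (al5 W (lk6 m))) k)) :=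
      ⟨fun e => by rw [e], fun e => vn_inj hw4 (N.ka_lt _ _ _) (N.ka_lt _ _ _) e⟩
    simp only [e4]
  unfold HN
  have e5 : (List.range (N.kn t)).map (N.term T t (awl W m)) =
      ((List.range (N.kn t)).map (fun k => p.getD k 0)).map (N.term T t m) := by
    rw [List.map_map]
    exact List.map_congr_left key
  rw [e5]
  have e6 : (List.range (N.kn t)).map (fun k => p.getD k 0) = p := by
    have hl : p.length = N.kn t := by rw [perm.length_eq, List.length_range]
    apply List.ext_getElem
    · simp [hl]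
    · intro k hk1 hk2
      simp only [List.length_map, List.length_range] at hk1
      simp [hk2]
  rw [e6]
  exact (perm.map _).sum_eq

theorem GN_tau {T : Tab} {gens : Nat → List (List Nat)} {cert : List (Nat × List (List Nat))}
    (h : T.Good gens cert) (hN : ∀ t < T.NT, ∀ W ∈ gens t, ∃ p, N.ckP T t W p = true)
    {m : Nat} (hm : Adm m) {j : Nat} (hj : j < 4) : N.GN T (tau j m) = N.GN T m :=
  Tab.lift_tau h (fun _ ht _ hW _ hm hr => N.HN_gen h hN ht hW hm hr) hm hj

theorem GN_tau5 {T : Tab} {gens : Nat → List (List Nat)} {cert : List (Nat × List (List Nat))}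
    (h : T.Good gens cert) {m : Nat} (hm : m < 2 ^ 35) : N.GN T (tau 5 m) = N.GN T m := by
  have hw := h.w4r (rt_lt m)
  unfold GN Tab.lift
  rw [rt_tau5]
  unfold HN
  refine congrArg List.sum (List.map_congr_left fun k _ => ?_)
  unfold term
  rw [lk5_awl _ _ hw, lk6_awl _ _ hw, lk5_awl _ _ hw, lk6_awl _ _ hw, lk5_tau5, lk6_tau5]
  rw [bit_awl hw (tau_lt _ _) (N.ka_lt _ _ _), bit_awl hw hm (N.ka_lt _ _ _),
    bit_tau5 _ (vn_lt hw (N.ka_lt _ _ _))]
  by_cases e : N.ka (T.ty (rt m)) (T.fi (T.ty (rt m)) (al5 (T.wr (rt m)) (lk5 m))) k =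
      N.ka (T.ty (rt m)) (T.fi (T.ty (rt m)) (al5 (T.wr (rt m)) (lk6 m))) k
  · rw [e]
  · have e' : ¬ N.ka (T.ty (rt m)) (T.fi (T.ty (rt m)) (al5 (T.wr (rt m)) (lk6 m))) k =
      N.ka (T.ty (rt m)) (T.fi (T.ty (rt m)) (al5 (T.wr (rt m)) (lk5 m))) k := fun h => e h.symm
    rw [if_neg (fun h => e' h.1), if_neg (fun h => e h.1)]

theorem GN_inv {T : Tab} {gens : Nat → List (List Nat)} {cert : List (Nat × List (List Nat))}
    (h : T.Good gens cert) (hN : ∀ t < T.NT, ∀ W ∈ gens t, ∃ p, N.ckP T t W p = true) :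
    ∀ W ∈ ([[0], [1], [2], [3], [5]] : List (List Nat)), ∀ m, Adm m →
      N.GN T (awl W m) = N.GN T m := by
  intro W hW m hm
  simp only [List.mem_cons, List.not_mem_nil, or_false] at hW
  rcases hW with rfl | rfl | rfl | rfl | rfl
  · exact N.GN_tau (j := 0) h hN hm (by norm_num)
  · exact N.GN_tau (j := 1) h hN hm (by norm_num)
  · exact N.GN_tau (j := 2) h hN hm (by norm_num)
  · exact N.GN_tau (j := 3) h hN hm (by norm_num)
  · exact N.GN_tau5 h hm.lt

end NTab

end KC
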