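import Pool.Agent.Helper85.KV.N1
import Pool.Agent.Helper85.KV.V2

set_option autoImplicit false

/-!
Kernel evaluation of the family (N) and the bridge to the inequality.
-/

namespace KC

open KF Finset

theorem list_sum_range {M : Type} [AddCommMonoid M] (f : Nat → M) (n : Nat) :
    ((List.range n).map f).sum = ∑ i ∈ range n, f i := by
  induction n with
  | zero => simp
  | succ n ih => rw [List.range_succ, List.map_append, List.sum_append, ih, sum_range_succ]; simp

/-- Weighted number of elements of a bit set, for the kernel. -/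
noncomputable def wsum (M : Nat → Nat) : Nat → Nat → Nat → Nat :=
  Nat.rec (motive := fun _ => Nat → Nat → Nat) (fun _ acc => acc)
    (fun _ ih S acc => Bool.rec (motive := fun _ => Nat)
      (fc (Nat.log2 S) fun k => fc (Nat.add acc (M k)) fun a => ih (Nat.sub S (Nat.pow 2 k)) a)
      acc (Nat.beq S 0))

theorem wsum_eq (M : Nat → Nat) : ∀ (n S acc : Nat), S < 2 ^ n →
    wsum M n S acc = acc + ∑ k ∈ range n, if S.testBit k then M k else 0
  | 0, _, _, _ => rfl
  | n + 1, S, acc, hS => by
    change Bool.rec (motive := fun _ => Nat)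
      (fc (Nat.log2 S) fun k => fc (Nat.add acc (M k)) fun a =>
        wsum M n (Nat.sub S (Nat.pow 2 k)) a) acc (Nat.beq S 0) = _
    rw [fc_eq, fc_eq]
    by_cases h : S = 0
    · subst h
      simp
    · have hb : Nat.beq S 0 = false := by
        cases hb : Nat.beq S 0
        · rfl
        · exact absurd (Nat.eq_of_beq_eq_true hb) h
      rw [hb]
      set k := Nat.log2 S with hk
      have h1 : 2 ^ k ≤ S := Nat.log2_self_le h
      have h2 : S < 2 ^ (k + 1) := Nat.lt_log2_self
      have hkn : k ≤ n := by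
        by_contra hc
        push Not at hc
        have : 2 ^ (n + 1) ≤ 2 ^ k := Nat.pow_le_pow_right (by norm_num) hc
        omega
      have h3 : S - 2 ^ k < 2 ^ k := by
        rw [pow_succ] at h2; omega
      have h4 : S - 2 ^ k < 2 ^ n := lt_of_lt_of_le h3 (Nat.pow_le_pow_right (by norm_num) hkn)
      change wsum M n (S - 2 ^ k) (acc + M k) = _
      rw [wsum_eq M n _ _ h4]
      have e1 : S = 2 ^ k + (S - 2 ^ k) := by omega
      have t1 : ∀ i, i ≠ k → S.testBit i = (S - 2 ^ k).testBit i := by
        intro i hi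
        rcases lt_or_gt_of_ne hi with h5 | h5
        · conv_lhs => rw [e1]
          exact Nat.testBit_two_pow_add_gt h5 _
        · rw [Nat.testBit_eq_false_of_lt (lt_of_lt_of_le h2
            (Nat.pow_le_pow_right (by norm_num) (by omega))),
            Nat.testBit_eq_false_of_lt (lt_of_lt_of_le h3
            (Nat.pow_le_pow_right (by norm_num) (by omega)))]
      have t2 : S.testBit k = true := by
        conv_lhs => rw [e1]
        rw [Nat.testBit_two_pow_add_eq, Nat.testBit_eq_false_of_lt h3]; rfl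
      have t3 : (S - 2 ^ k).testBit k = false := Nat.testBit_eq_false_of_lt h3
      have t4 : (S - 2 ^ k).testBit n = false := Nat.testBit_eq_false_of_lt h4
      have s1 : ∑ i ∈ range (n + 1), (if S.testBit i then M i else 0) =
          ∑ i ∈ range (n + 1), ((if (S - 2 ^ k).testBit i then M i else 0) +
            if i = k then M i else 0) := by
        refine sum_congr rfl fun i _ => ?_
        by_cases hi : i = k
        · subst hi; rw [t2, t3]; simp
        · rw [t1 i hi, if_neg hi, add_zero]
      rw [s1, sum_add_distrib, sum_ite_eq' (range (n + 1)) k M,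
        if_pos (mem_range.2 (by omega)), sum_range_succ, t4]
      simp only [Bool.false_eq_true, if_false]
      omega

namespace NTab

variable (N : NTab)

/-- One of the five summands. -/
noncomputable def stp (t m' S j acc : Nat) : Nat :=
  Bool.rec (motive := fun _ => Nat) acc (wsum (N.mu t) 64 (f64 S j) acc)
    (Nat.beq (Nat.land (Nat.shiftRight m' (Nat.add 30 j)) 1) 1)

/-- Kernel version of the integrand, with offset. -/
noncomputable def gNK (T : Tab) (OFF : Nat) (m : Nat) : Nat :=
  fc (T.cw (Nat.land m 1023)) fun c =>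
  fc (awN 12 (Nat.shiftRight c 4) m) fun m' =>
  fc (Nat.land c 15) fun t =>
  fc (Nat.land (N.kb t (T.fi t (Nat.land (Nat.shiftRight m' 10) 1023)))
    (N.kb t (T.fi t (Nat.land (Nat.shiftRight m' 20) 1023)))) fun S =>
  fc (N.stp t m' S 0 0) fun a0 =>
  fc (N.stp t m' S 1 a0) fun a1 =>
  fc (N.stp t m' S 2 a1) fun a2 =>
  fc (N.stp t m' S 3 a2) fun a3 =>
  fc (N.stp t m' S 4 a3) fun a4 =>
  Nat.sub (Nat.add OFF (Nat.mul N.B (ent N.MT 64 18446744073709551615 t))) (Nat.mul N.A a4)

/-- Number of the five sets that contain the term `k`. -/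
def cn (X k : Nat) : Nat :=
  (bif X.testBit k then 1 else 0) + (bif X.testBit (64 + k) then 1 else 0) +
  (bif X.testBit (128 + k) then 1 else 0) + (bif X.testBit (192 + k) then 1 else 0) +
  (bif X.testBit (256 + k) then 1 else 0)

/-- The five sets form a partition of the set of terms. -/
noncomputable def ckK (T : Tab) (t : Nat) : Bool :=
  (List.range (T.nf t)).all fun f => (List.range 64).all fun k =>
    Nat.beq (cn (N.kb t f) k) (bif Nat.blt k (N.kn t) then 1 else 0)

/-- The number of terms and the total weight. -/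
noncomputable def ckM (OFF t : Nat) : Bool :=
  Nat.ble (N.kn t) 64 && Nat.beq (ent N.MT 64 18446744073709551615 t) (N.mt t) &&
    Nat.ble (Nat.mul N.A (N.mt t)) OFF

theorem f64_bit (X j k : Nat) : (f64 X j).testBit k = (decide (k < 64) && X.testBit (64 * j + k)) := by
  unfold f64
  rw [land_bit]
  have h : Nat.shiftRight X (Nat.mul 64 j) = X >>> (64 * j) := rfl
  rw [h, Nat.testBit_shiftRight]
  have h2 : (18446744073709551615 : Nat) = 2 ^ 64 - 1 := by norm_num
  rw [h2, Nat.testBit_two_pow_sub_one]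
  cases X.testBit (64 * j + k) <;> simp

theorem f64_lt (X j : Nat) : f64 X j < 2 ^ 64 := by
  unfold f64
  exact lt_of_le_of_lt Nat.and_le_right (by norm_num)

theorem land_one (x : Nat) : Nat.land x 1 = if x.testBit 0 then 1 else 0 := by
  have : Nat.land x 1 = x % 2 := by
    have := land_mod x 1
    rwa [show (2 : Nat) ^ 1 - 1 = 1 by norm_num, pow_one] at this
  rw [this, Nat.testBit_zero]
  rcases Nat.mod_two_eq_zero_or_one x with h | h <;> simp [h]

theorem stp_eq (t m' S j acc : Nat) : N.stp t m' S j acc = acc +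
    if m'.testBit (30 + j) then ∑ k ∈ range 64, (if S.testBit (64 * j + k) then N.mu t k else 0)
      else 0 := by
  unfold stp
  have h0 : Nat.land (Nat.shiftRight m' (Nat.add 30 j)) 1 =
      if m'.testBit (30 + j) then 1 else 0 := by
    rw [land_one]
    have : (Nat.shiftRight m' (Nat.add 30 j)).testBit 0 = m'.testBit (30 + j) := by
      change (m' >>> (30 + j)).testBit 0 = _
      rw [Nat.testBit_shiftRight, add_zero]
    rw [this]
  rw [h0]
  have hw := wsum_eq (N.mu t) 64 (f64 S j) acc (f64_lt S j)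
  generalize wsum (N.mu t) 64 (f64 S j) acc = z at hw ⊢
  cases m'.testBit (30 + j)
  · rw [if_neg Bool.false_ne_true, if_neg Bool.false_ne_true, add_zero]
    rfl
  · have : Nat.beq (if true = true then 1 else 0) 1 = true := rfl
    rw [this, if_pos rfl]
    change z = _
    rw [hw]
    refine congrArg (fun y => acc + y) (sum_congr rfl fun k hk => ?_)
    rw [f64_bit, decide_eq_true (mem_range.1 hk), Bool.true_and]

attribute [irreducible] stp

/-- The checks of the tables. -/
structure GoodN (T : Tab) (OFF : Nat) : Prop where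
  k : ∀ t < T.NT, N.ckK T t = true
  m : ∀ t < T.NT, N.ckM OFF t = true

variable {N}

theorem ka_iff {T : Tab} {OFF : Nat} (hN : N.GoodN T OFF) {t f k : Nat} (ht : t < T.NT)
    (hf : f < T.nf t) (hk : k < N.kn t) {j : Nat} (hj : j < 5) :
    (N.kb t f).testBit (64 * j + k) = decide (N.ka t f k = j) := by
  have h1 := hN.k t ht
  have h2 := hN.m t ht
  simp only [ckK, List.all_eq_true, List.mem_range] at h1
  simp only [ckM, Bool.and_eq_true, Nat.ble_eq] at h2
  have h3 := Nat.eq_of_beq_eq_true (h1 f hf k (by omega))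
  have h4 : Nat.blt k (N.kn t) = true := by rw [Nat.blt_eq]; exact hk
  rw [h4, cond_true] at h3
  unfold cn at h3
  unfold ka bj
  simp only [Nat.mul_zero, Nat.zero_add, Nat.mul_one] at *
  have e2 : 64 * 2 + k = 128 + k := by omega
  have e3 : 64 * 3 + k = 192 + k := by omega
  have e4 : 64 * 4 + k = 256 + k := by omega
  rw [e2, e3]
  have hj' : j = 0 ∨ j = 1 ∨ j = 2 ∨ j = 3 ∨ j = 4 := by omega
  generalize hx : N.kb t f = X at *
  generalize h0 : X.testBit k = b0 at *
  generalize h1' : X.testBit (64 + k) = b1 at *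
  generalize h2' : X.testBit (128 + k) = b2 at *
  generalize h3' : X.testBit (192 + k) = b3 at *
  generalize h4' : X.testBit (256 + k) = b4 at *
  rcases hj' with rfl | rfl | rfl | rfl | rfl
  · rw [Nat.mul_zero, Nat.zero_add, h0]
    cases b0 <;> cases b1 <;> cases b2 <;> cases b3 <;> cases b4 <;> simp at h3 ⊢
  · rw [Nat.mul_one, h1']
    cases b0 <;> cases b1 <;> cases b2 <;> cases b3 <;> cases b4 <;> simp at h3 ⊢
  · rw [e2, h2']
    cases b0 <;> cases b1 <;> cases b2 <;> cases b3 <;> cases b4 <;> simp at h3 ⊢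
  · rw [e3, h3']
    cases b0 <;> cases b1 <;> cases b2 <;> cases b3 <;> cases b4 <;> simp at h3 ⊢
  · rw [e4, h4']
    cases b0 <;> cases b1 <;> cases b2 <;> cases b3 <;> cases b4 <;> simp at h3 ⊢

theorem kb_high {T : Tab} {OFF : Nat} (hN : N.GoodN T OFF) {t f k : Nat} (ht : t < T.NT)
    (hf : f < T.nf t) (hk : N.kn t ≤ k) (hk2 : k < 64) {j : Nat} (hj : j < 5) :
    (N.kb t f).testBit (64 * j + k) = false := by
  have h1 := hN.k t ht
  simp only [ckK, List.all_eq_true, List.mem_range] at h1
  have h3 := Nat.eq_of_beq_eq_true (h1 f hf k hk2)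
  have h4 : Nat.blt k (N.kn t) = false := by
    cases h : Nat.blt k (N.kn t)
    · rfl
    · rw [Nat.blt_eq] at h; omega
  rw [h4, cond_false] at h3
  unfold cn at h3
  have e2 : 64 * 2 + k = 128 + k := by omega
  have e3 : 64 * 3 + k = 192 + k := by omega
  have e4 : 64 * 4 + k = 256 + k := by omega
  have hj' : j = 0 ∨ j = 1 ∨ j = 2 ∨ j = 3 ∨ j = 4 := by omega
  generalize hx : N.kb t f = X at *
  generalize h0 : X.testBit k = b0 at *
  generalize h1' : X.testBit (64 + k) = b1 at *
  generalize h2' : X.testBit (128 + k) = b2 at *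
  generalize h3' : X.testBit (192 + k) = b3 at *
  generalize h4' : X.testBit (256 + k) = b4 at *
  rcases hj' with rfl | rfl | rfl | rfl | rfl
  · rw [Nat.mul_zero, Nat.zero_add, h0]
    cases b0 <;> cases b1 <;> cases b2 <;> cases b3 <;> cases b4 <;> simp at h3 ⊢
  · rw [Nat.mul_one, h1']
    cases b0 <;> cases b1 <;> cases b2 <;> cases b3 <;> cases b4 <;> simp at h3 ⊢
  · rw [e2, h2']
    cases b0 <;> cases b1 <;> cases b2 <;> cases b3 <;> cases b4 <;> simp at h3 ⊢
  · rw [e3, h3']
    cases b0 <;> cases b1 <;> cases b2 <;> cases b3 <;> cases b4 <;> simp at h3 ⊢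
  · rw [e4, h4']
    cases b0 <;> cases b1 <;> cases b2 <;> cases b3 <;> cases b4 <;> simp at h3 ⊢

/-- The total over the five fields. -/
theorem fields_eq {T : Tab} {OFF : Nat} (hN : N.GoodN T OFF) {t : Nat} (ht : t < T.NT)
    {f g : Nat} (hf : f < T.nf t) (hg : g < T.nf t) (m' : Nat) :
    ∑ j ∈ range 5, (if m'.testBit (30 + j) then
      ∑ k ∈ range 64, (if (Nat.land (N.kb t f) (N.kb t g)).testBit (64 * j + k) then N.mu t k
        else 0) else 0) =
    ∑ k ∈ range (N.kn t), (if (N.ka t f k = N.ka t g k ∧ m'.testBit (30 + N.ka t f k) = true)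
      then N.mu t k else 0) := by
  have h2 := hN.m t ht
  simp only [ckM, Bool.and_eq_true, Nat.ble_eq] at h2
  have hkn : N.kn t ≤ 64 := h2.1.1
  have step1 : ∀ j ∈ range 5, (if m'.testBit (30 + j) then
      ∑ k ∈ range 64, (if (Nat.land (N.kb t f) (N.kb t g)).testBit (64 * j + k) then N.mu t k
        else 0) else 0) =
      ∑ k ∈ range (N.kn t), (if (N.ka t f k = j ∧ N.ka t g k = j ∧ m'.testBit (30 + j) = true)
        then N.mu t k else 0) := by
    intro j hj
    have hj := mem_range.1 hj
    have s1 : ∑ k ∈ range 64, (if (Nat.land (N.kb t f) (N.kb t g)).testBit (64 * j + k) then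
        N.mu t k else 0) = ∑ k ∈ range (N.kn t), (if (N.ka t f k = j ∧ N.ka t g k = j)
        then N.mu t k else 0) := by
      rw [← sum_subset (range_subset_range.2 hkn)]
      · refine sum_congr rfl fun k hk => ?_
        rw [land_bit, ka_iff hN ht hf (mem_range.1 hk) hj, ka_iff hN ht hg (mem_range.1 hk) hj]
        by_cases a : N.ka t f k = j <;> by_cases b : N.ka t g k = j <;> simp [a, b]
      · intro k hk hk2
        rw [land_bit, kb_high hN ht hf (by simpa using hk2) (mem_range.1 hk) hj]
        simp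
    rw [s1]
    cases m'.testBit (30 + j)
    · simp
    · simp
  rw [sum_congr rfl step1, sum_comm]
  refine sum_congr rfl fun k _ => ?_
  have hlt := N.ka_lt t f k
  rw [sum_eq_single (N.ka t f k)]
  · by_cases a : N.ka t g k = N.ka t f k
    · simp [a]
    · have a' : ¬ N.ka t f k = N.ka t g k := fun e => a e.symm
      simp [a, a']
  · intro j _ hj
    have : ¬ N.ka t f k = j := fun e => hj e.symm
    simp [this]
  · intro h
    exact absurd (mem_range.2 hlt) h

theorem gNK_eq {T : Tab} {gens : Nat → List (List Nat)} {cert : List (Nat × List (List Nat))}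
    (h : T.Good gens cert) {OFF : Nat} (hN : N.GoodN T OFF) (m : Nat) :
    ((N.gNK T OFF m : Nat) : ℤ) = N.GN T m + OFF := by
  unfold gNK
  simp only [fc_eq]
  have e2 : ∀ x : Nat, Nat.land (Nat.shiftRight x 10) 1023 = lk5 x := fun x => by
    rw [shift_div, Tab.land10]; rfl
  have e3 : ∀ x : Nat, Nat.land (Nat.shiftRight x 20) 1023 = lk6 x := fun x => by
    rw [shift_div, Tab.land10]; rfl
  rw [Tab.land10, awN_eq, e2, e3]
  have ht : T.ty (rt m) < T.NT := h.tyr (rt_lt m)
  change (((OFF + N.B * ent N.MT 64 18446744073709551615 (T.ty (rt m))) - N.A *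
    N.stp (T.ty (rt m)) (awl (T.wr (rt m)) m) _ 4 _ : Nat) : ℤ) = _
  set t := T.ty (rt m) with htd
  set m' := awl (T.wr (rt m)) m with hm'
  have hw := h.w4r (rt_lt m)
  have hf : T.fi t (lk5 m') < T.nf t := h.fi_lt ht (lk5_lt _)
  have hg : T.fi t (lk6 m') < T.nf t := h.fi_lt ht (lk6_lt _)
  have tot := fields_eq hN ht hf hg m'
  rw [sum_range_succ, sum_range_succ, sum_range_succ, sum_range_succ, sum_range_one] at tot
  simp only [stp_eq]
  change (((OFF + N.B * ent N.MT 64 18446744073709551615 t) - N.A * (0 + _ + _ + _ + _ + _) : Nat) : ℤ)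
    = _
  rw [Nat.zero_add]
  change (((OFF + N.B * ent N.MT 64 18446744073709551615 t) - N.A *
    ((if m'.testBit (30 + 0) then ∑ k ∈ range 64, (if (Nat.land (N.kb t (T.fi t (lk5 m')))
      (N.kb t (T.fi t (lk6 m')))).testBit (64 * 0 + k) then N.mu t k else 0) else 0) +
    (if m'.testBit (30 + 1) then ∑ k ∈ range 64, (if (Nat.land (N.kb t (T.fi t (lk5 m')))
      (N.kb t (T.fi t (lk6 m')))).testBit (64 * 1 + k) then N.mu t k else 0) else 0) +
    (if m'.testBit (30 + 2) then ∑ k ∈ range 64, (if (Nat.land (N.kb t (T.fi t (lk5 m')))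
      (N.kb t (T.fi t (lk6 m')))).testBit (64 * 2 + k) then N.mu t k else 0) else 0) +
    (if m'.testBit (30 + 3) then ∑ k ∈ range 64, (if (Nat.land (N.kb t (T.fi t (lk5 m')))
      (N.kb t (T.fi t (lk6 m')))).testBit (64 * 3 + k) then N.mu t k else 0) else 0) +
    (if m'.testBit (30 + 4) then ∑ k ∈ range 64, (if (Nat.land (N.kb t (T.fi t (lk5 m')))
      (N.kb t (T.fi t (lk6 m')))).testBit (64 * 4 + k) then N.mu t k else 0) else 0)) : Nat) : ℤ)
    = _
  rw [tot]
  have hM := hN.m t ht
  simp only [ckM, Bool.and_eq_true, Nat.ble_eq] at hM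
  obtain ⟨⟨-, hM2⟩, hM3⟩ := hM
  have hM2 := Nat.eq_of_beq_eq_true hM2
  have hM3 : N.A * N.mt t ≤ OFF := hM3
  rw [hM2]
  set A := ∑ k ∈ range (N.kn t), (if (N.ka t (T.fi t (lk5 m')) k = N.ka t (T.fi t (lk6 m')) k ∧
    m'.testBit (30 + N.ka t (T.fi t (lk5 m')) k) = true) then N.mu t k else 0) with hA
  have hAle : A ≤ N.mt t := by
    rw [hA, mt, list_sum_range]
    refine sum_le_sum fun k _ => ?_
    split_ifs <;> omega
  have hGN : N.GN T m = N.B * (N.mt t : ℤ) - N.A * (A : ℤ) := by
    unfold GN Tab.lift HN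
    rw [list_sum_range, ← htd, ← hm', mt, list_sum_range, hA]
    push_cast
    rw [mul_sum, mul_sum, ← sum_sub_distrib]
    refine sum_congr rfl fun k _ => ?_
    unfold term
    split_ifs <;> ring
  rw [hGN]
  have hle : N.A * A ≤ OFF + N.B * N.mt t :=
    (Nat.mul_le_mul_left _ hAle).trans (hM3.trans (Nat.le_add_right _ _))
  rw [Nat.cast_sub hle]
  push_cast
  ring

end NTab

end KC
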