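import Pool.Agent.Helper91.KF.F3

set_option autoImplicit false

/-!
Replacing a set by a homogeneous module with an admissible outside link: the inequalities
(module), (clone of a vertex) and (V) for optimal weighted K4^- -free 3-graphs.
-/

namespace KF85

open Finset hiding dens
open KF

/-- The 3-graph `E` on the left, `E'` on the right, and all right vertices have the outside
link `N`. -/
def gmod {V W : Type} (E : V → V → V → Bool) (N : V → V → Bool) (E' : W → W → W → Bool) :
    V ⊕ W → V ⊕ W → V ⊕ W → Bool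
  | Sum.inl a, Sum.inl b, Sum.inl c => E a b c
  | Sum.inr _, Sum.inl b, Sum.inl c => N b c
  | Sum.inl a, Sum.inr _, Sum.inl c => N a c
  | Sum.inl a, Sum.inl b, Sum.inr _ => N a b
  | Sum.inr i, Sum.inr j, Sum.inr k => E' i j k
  | _, _, _ => false

theorem gmod_K4m {V W : Type} {E : V → V → V → Bool} (hE : K4m E) {N : V → V → Bool}
    (hN : Adm E N) {E' : W → W → W → Bool} (hE' : K4m E') : K4m (gmod E N E') := by
  have s23 := hE.s23
  refine ⟨?_, ?_, ?_, ?_⟩
  · rintro (a | i) (b | j) (c | k) <;> simp only [gmod] <;>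
      first
      | exact hE.s12 _ _ _
      | exact hE'.s12 _ _ _
      | exact hN.symm _ _
  · rintro (a | i) (b | j) (c | k) <;> simp only [gmod] <;>
      first
      | exact hE.s23 _ _ _
      | exact hE'.s23 _ _ _
      | exact hN.symm _ _
  · rintro (a | i) (b | j) <;> simp only [gmod] <;>
      first
      | exact hE.irr _ _
      | exact hE'.irr _ _
      | exact hN.irr _
  · rintro (a | i) (b | j) (c | k) (d | l) h1 h2 h3 <;>
      simp only [gmod] at h1 h2 h3 <;>
      first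
      | exact absurd h1 Bool.false_ne_true
      | exact absurd h2 Bool.false_ne_true
      | exact absurd h3 Bool.false_ne_true
      | exact hE.free _ _ _ _ h1 h2 h3
      | exact hE'.free _ _ _ _ h1 h2 h3
      | exact hN.tri _ _ _ h1 h2 h3
      | exact hN.path _ _ _ h1 h2 h3
      | exact hN.path _ _ _ h1 h3 h2
      | exact hN.path _ _ _ h2 h1 h3
      | exact hN.path _ _ _ h2 h3 h1

/-- The density of the pairs of a link. -/
noncomputable def lnk {V : Type} [Fintype V] (N : V → V → Bool) (q : V → ℝ) : ℝ :=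
  ∑ y, ∑ z, q y * q z * b2r (N y z)

theorem dens_gmod {V W : Type} [Fintype V] [Fintype W] (E : V → V → V → Bool)
    (N : V → V → Bool) (E' : W → W → W → Bool) (q : V → ℝ) (s : ℝ) {w' : W → ℝ}
    (hw' : ∑ i, w' i = 1) :
    dens (gmod E N E') (Sum.elim q (fun i => s * w' i)) =
      dens E q + 3 * s * lnk N q + s ^ 3 * dens E' w' := by
  unfold dens lnk
  simp only [Fintype.sum_sum_type, Sum.elim_inl, Sum.elim_inr, gmod, b2r_false, mul_zero,
    Finset.sum_const_zero, add_zero, zero_add, Finset.sum_add_distrib]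
  have h1 : ∑ i : W, ∑ y, ∑ z, s * w' i * q y * q z * b2r (N y z) =
      s * ∑ y, ∑ z, q y * q z * b2r (N y z) := by
    have e : ∀ i : W, ∑ y, ∑ z, s * w' i * q y * q z * b2r (N y z) =
        w' i * (s * ∑ y, ∑ z, q y * q z * b2r (N y z)) := by
      intro i
      simp only [Finset.mul_sum]
      exact Finset.sum_congr rfl fun y _ => Finset.sum_congr rfl fun z _ => by ring
    rw [Finset.sum_congr rfl fun i _ => e i, ← Finset.sum_mul, hw', one_mul]
  have h2 : ∑ y, ∑ i : W, ∑ z, q y * (s * w' i) * q z * b2r (N y z) =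
      s * ∑ y, ∑ z, q y * q z * b2r (N y z) := by
    rw [Finset.sum_comm]
    rw [← h1]
    refine Finset.sum_congr rfl fun i _ => Finset.sum_congr rfl fun y _ =>
      Finset.sum_congr rfl fun z _ => by ring
  have h3 : ∑ y, ∑ z, ∑ i : W, q y * q z * (s * w' i) * b2r (N y z) =
      s * ∑ y, ∑ z, q y * q z * b2r (N y z) := by
    simp only [Finset.mul_sum]
    refine Finset.sum_congr rfl fun y _ => Finset.sum_congr rfl fun z _ => ?_
    have e : ∀ i : W, q y * q z * (s * w' i) * b2r (N y z) =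
        w' i * (s * (q y * q z * b2r (N y z))) := by intro i; ring
    rw [Finset.sum_congr rfl fun i _ => e i, ← Finset.sum_mul, hw', one_mul]
  have h4 : ∑ i : W, ∑ j : W, ∑ k : W, s * w' i * (s * w' j) * (s * w' k) * b2r (E' i j k) =
      s ^ 3 * ∑ i, ∑ j, ∑ k, w' i * w' j * w' k * b2r (E' i j k) := by
    simp only [Finset.mul_sum]
    exact Finset.sum_congr rfl fun i _ => Finset.sum_congr rfl fun j _ =>
      Finset.sum_congr rfl fun k _ => by ring
  rw [h1, h2, h3, h4]
  ring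

/-- The module inequality. -/
theorem ineqMod {V : Type} [Fintype V] {E : V → V → V → Bool} (hE : K4m E)
    {N : V → V → Bool} (hN : Adm E N) {q : V → ℝ} (hq : ∀ v, 0 ≤ q v) {s : ℝ} (hs : 0 ≤ s) :
    dens E q + 3 * s * lnk N q + s ^ 3 * L ≤ L * (∑ v, q v + s) ^ 3 := by
  have h1 : ∀ x ∈ Vals, dens E q + 3 * s * lnk N q + s ^ 3 * x ≤ L * (∑ v, q v + s) ^ 3 := by
    rintro x ⟨m, E', w', hE', hw', rfl⟩
    rw [← dens_gmod E N E' q s hw'.one]
    have h2 := dens_le_L_hom (gmod_K4m hE hN hE') (u := Sum.elim q (fun i => s * w' i)) (by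
      rintro (v | i)
      · exact hq v
      · exact mul_nonneg hs (hw'.nn i))
    simp only [Fintype.sum_sum_type, Sum.elim_inl, Sum.elim_inr, ← Finset.mul_sum, hw'.one,
      mul_one] at h2
    exact h2
  rcases hs.eq_or_lt with h | h
  · obtain ⟨x, hx⟩ := vals_nonempty
    have := h1 x hx
    rw [← h] at this ⊢
    simpa using this
  · have h3 : L ≤ (L * (∑ v, q v + s) ^ 3 - (dens E q + 3 * s * lnk N q)) / s ^ 3 := by
      refine csSup_le vals_nonempty fun x hx => ?_
      rw [le_div_iff₀ (by positivity)]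
      have := h1 x hx
      linarith
    rw [le_div_iff₀ (by positivity)] at h3
    linarith

/-- The link of a vertex is admissible. -/
theorem adm_link {V : Type} {E : V → V → V → Bool} (hE : K4m E) (v : V) : Adm E (E v) := by
  have s12 := hE.s12
  have s23 := hE.s23
  refine ⟨fun a b => s23 v a b, fun a => ?_, fun a b c h1 h2 h3 => hE.free v a b c h1 h2 h3,
    fun a b c h1 h2 h3 => ?_⟩
  · rw [s12, s23]; exact hE.irr a v
  · refine hE.free a v b c ?_ ?_ h3
    · rw [s12]; exact h1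
    · rw [s12]; exact h2

/-- The multi-swap link. -/
theorem adm_swap {V : Type} {E : V → V → V → Bool} (hE : K4m E) {n : ℕ} (ρ : Fin n → V)
    (κ : V → Fin n) : Adm E (fun y z => decide (κ y = κ z) && E (ρ (κ y)) y z) := by
  refine ⟨fun a b => ?_, fun a => ?_, fun a b c h1 h2 h3 => ?_, fun a b c h1 h2 h3 => ?_⟩
  · by_cases h : κ a = κ b
    · rw [h, (adm_link hE (ρ (κ b))).symm]
    · have h' : ¬ κ b = κ a := fun e => h e.symm
      simp [h, h']
  · rw [(adm_link hE _).irr, Bool.and_false]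
  · beta_reduce at h1 h2 h3
    rw [Bool.and_eq_true, decide_eq_true_eq] at h1 h2 h3
    refine (adm_link hE (ρ (κ a))).tri a b c h1.2 h2.2 ?_
    have := h3.2
    rw [← h1.1] at this
    exact this
  · beta_reduce at h1 h2 h3
    rw [Bool.and_eq_true, decide_eq_true_eq] at h1 h2
    exact (adm_link hE (ρ (κ a))).path a b c h1.2 h2.2 h3

section
variable {V : Type} [Fintype V]

/-- The pairs of the link of `v` that meet the weight `c`. -/
noncomputable def oo (E : V → V → V → Bool) (w c : V → ℝ) (v : V) : ℝ :=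
  Ev 2 w (fun ψ => (c (ψ 0) + c (ψ 1) - c (ψ 0) * c (ψ 1)) * b2r (E v (ψ 0) (ψ 1)))

theorem lnk_compl {E : V → V → V → Bool} {w : V → ℝ} (c : V → ℝ) (v : V) :
    lnk (E v) (fun x => w x * (1 - c x)) = deg E w v - oo E w c v := by
  unfold oo lnk deg
  rw [Ev_two w (fun x y => (c x + c y - c x * c y) * b2r (E v x y)), ← Finset.sum_sub_distrib]
  refine Finset.sum_congr rfl fun x _ => ?_
  rw [← Finset.sum_sub_distrib]
  exact Finset.sum_congr rfl fun y _ => by ring

theorem dens_compl {E : V → V → V → Bool} {w : V → ℝ} (ho : Opt E w) (c : V → ℝ) :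
    dens E (fun x => w x * (1 - c x)) = dens E w - 3 * (dens E w * ∑ x, w x * c x) +
      3 * Ev 3 w (fun ψ => c (ψ 0) * c (ψ 1) * b2r (E (ψ 0) (ψ 1) (ψ 2))) -
      Ev 3 w (fun ψ => c (ψ 0) * c (ψ 1) * c (ψ 2) * b2r (E (ψ 0) (ψ 1) (ψ 2))) := by
  have hE := ho.free
  set p : V → ℝ := fun v => w v * c v with hp
  have hlin : tri E p w w = dens E w * ∑ v, p v := by
    have : tri E p w w = ∑ v, p v * deg E w v := by
      unfold tri deg
      refine Finset.sum_congr rfl fun x _ => ?_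
      rw [Finset.mul_sum]
      refine Finset.sum_congr rfl fun y _ => ?_
      rw [Finset.mul_sum]
      refine Finset.sum_congr rfl fun z _ => by ring
    rw [this, Finset.mul_sum]
    refine Finset.sum_congr rfl fun v _ => ?_
    rw [ho.reg v]; ring
  have e1 : tri E p p w = Ev 3 w (fun ψ => c (ψ 0) * c (ψ 1) * b2r (E (ψ 0) (ψ 1) (ψ 2))) := by
    have := tri_mul E w c c (fun _ => 1)
    simp only [mul_one] at this
    rw [hp, this]
  have e2 : tri E p p p = Ev 3 w (fun ψ => c (ψ 0) * c (ψ 1) * c (ψ 2) *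
      b2r (E (ψ 0) (ψ 1) (ψ 2))) := tri_mul E w c c c
  have hq : (fun x => w x * (1 - c x)) = w + (-1 : ℝ) • p := by
    funext v
    simp only [hp, Pi.add_apply, Pi.smul_apply, smul_eq_mul]; ring
  rw [hq, ← e1, ← e2]
  simp only [dens_eq_tri E, tri_add1, tri_add2 hE, tri_add3 hE, tri_smul1, tri_smul2 hE,
    tri_smul3 hE]
  rw [tri_swap23 hE p w p, tri_swap13 hE w p p, tri_swap13 hE w w p, tri_swap12 hE w p w,
    hlin, dens_eq_tri]
  ring

/-- (R_v): the weight `c` is replaced by a module of clones of `v`. -/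
theorem ineqRv {E : V → V → V → Bool} {w : V → ℝ} (ho : Opt E w) {c : V → ℝ}
    (hc : ∀ v, 0 ≤ c v) (hc1 : ∀ v, c v ≤ 1) (v : V) :
    -(L - dens E w) ≤ 3 * (∑ x, w x * c x) * oo E w c v -
      3 * Ev 3 w (fun ψ => c (ψ 0) * c (ψ 1) * b2r (E (ψ 0) (ψ 1) (ψ 2))) +
      Ev 3 w (fun ψ => c (ψ 0) * c (ψ 1) * c (ψ 2) * b2r (E (ψ 0) (ψ 1) (ψ 2))) -
      L * (∑ x, w x * c x) ^ 3 := by
  have hs : 0 ≤ ∑ x, w x * c x := Finset.sum_nonneg fun x _ => mul_nonneg (ho.wt.nn x) (hc x)
  have h1 := ineqMod ho.free (adm_link ho.free v) (q := fun x => w x * (1 - c x))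
    (fun x => mul_nonneg (ho.wt.nn x) (by linarith [hc1 x])) hs
  rw [lnk_compl, dens_compl ho, ho.reg v] at h1
  have h2 : ∑ x, w x * (1 - c x) + ∑ x, w x * c x = 1 := by
    rw [← Finset.sum_add_distrib]
    refine Eq.trans (Finset.sum_congr rfl fun x _ => ?_) ho.wt.one
    ring
  rw [h2] at h1
  nlinarith [h1]

/-- (V) for fixed roots. -/
theorem ineqV {E : V → V → V → Bool} {w : V → ℝ} (ho : Opt E w) {c g : V → ℝ} {f : ℝ}
    (hc : ∀ v, 0 ≤ c v) (hc1 : ∀ v, c v ≤ 1) (hf : 0 ≤ f) (hg : ∀ v, 0 ≤ g v)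
    (hgc : ∀ v, g v ≤ f * c v) :
    -(2 * (L - dens E w) * f) ≤ 3 * Ev 3 w (fun ψ => g (ψ 0) *
        ((c (ψ 1) + c (ψ 2) - c (ψ 1) * c (ψ 2)) * b2r (E (ψ 0) (ψ 1) (ψ 2)) -
          L * (c (ψ 1) * c (ψ 2)))) +
      f * Ev 3 w (fun ψ => c (ψ 0) * c (ψ 1) * c (ψ 2) * (L - b2r (E (ψ 0) (ψ 1) (ψ 2)))) := by
  set s := ∑ x, w x * c x with hs
  have hs0 : 0 ≤ s := Finset.sum_nonneg fun x _ => mul_nonneg (ho.wt.nn x) (hc x)
  set K := Ev 3 w (fun ψ => c (ψ 0) * c (ψ 1) * c (ψ 2) * (L - b2r (E (ψ 0) (ψ 1) (ψ 2)))) with hK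
  have hK0 : 0 ≤ K := ineqM ho.free ho.wt.nn hc
  set A := Ev 3 w (fun ψ => c (ψ 0) * c (ψ 1) * c (ψ 2) * b2r (E (ψ 0) (ψ 1) (ψ 2))) with hA
  have hs3 : s ^ 3 = Ev 3 w (fun ψ => c (ψ 0) * c (ψ 1) * c (ψ 2)) := by
    rw [← prod3]; ring
  have hKA : K = L * s ^ 3 - A := by
    rw [hs3, ← Ev_mul, hA, ← Ev_sub, hK]
    exact Ev_congr 3 w fun ψ => by ring
  have hR := ineqR ho.free ho.wt hc hc1
  set P := Ev 3 w (fun ψ => c (ψ 0) * c (ψ 1) * b2r (E (ψ 0) (ψ 1) (ψ 2))) with hP
  have hR' : -(L - dens E w) ≤ 3 * P - 2 * A - L * s ^ 3 := by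
    refine hR.trans_eq ?_
    rw [hs3, hP, hA, ← Ev_mul, ← Ev_mul, ← Ev_mul, ← Ev_sub, ← Ev_sub]
  have hd : dens E w ≤ L := dens_le_L ho.free ho.wt
  have key : ∀ v, -(K + 2 * (L - dens E w)) ≤ 3 * s * (oo E w c v - L * s ^ 2) := by
    intro v
    have := ineqRv ho hc hc1 v
    rw [← hs, ← hP, ← hA] at this
    rw [hKA]
    nlinarith [this, hR']
  set G := ∑ x, w x * g x * (oo E w c x - L * s ^ 2) with hG
  have hGe : G = Ev 3 w (fun ψ => g (ψ 0) *
        ((c (ψ 1) + c (ψ 2) - c (ψ 1) * c (ψ 2)) * b2r (E (ψ 0) (ψ 1) (ψ 2)) -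
          L * (c (ψ 1) * c (ψ 2)))) := by
    rw [Ev_three w (fun x y z => g x * ((c y + c z - c y * c z) * b2r (E x y z) -
      L * (c y * c z))), hG]
    refine Finset.sum_congr rfl fun x _ => ?_
    have e1 : oo E w c x = ∑ y, ∑ z, w y * w z * ((c y + c z - c y * c z) * b2r (E x y z)) := by
      unfold oo
      exact Ev_two w (fun y z => (c y + c z - c y * c z) * b2r (E x y z))
    have e2 : s ^ 2 = ∑ y, ∑ z, w y * w z * (c y * c z) := by
      rw [sq, hs, Finset.sum_mul_sum]
      exact Finset.sum_congr rfl fun y _ => Finset.sum_congr rfl fun z _ => by ring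
    rw [e1, e2, Finset.mul_sum, ← Finset.sum_sub_distrib, Finset.mul_sum]
    refine Finset.sum_congr rfl fun y _ => ?_
    rw [Finset.mul_sum, ← Finset.sum_sub_distrib, Finset.mul_sum]
    exact Finset.sum_congr rfl fun z _ => by ring
  rw [← hGe]
  rcases hs0.eq_or_lt with h | h
  · -- trivial case
    have hz : ∀ x, w x * c x = 0 := by
      intro x
      have := (Finset.sum_eq_zero_iff_of_nonneg (fun x _ =>
        mul_nonneg (ho.wt.nn x) (hc x))).1 h.symm x (Finset.mem_univ x)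
      exact this
    have hz2 : ∀ x, w x * g x = 0 := by
      intro x
      have h1 : w x * g x ≤ w x * (f * c x) := mul_le_mul_of_nonneg_left (hgc x) (ho.wt.nn x)
      have h2 : w x * (f * c x) = 0 := by
        have := hz x
        calc w x * (f * c x) = f * (w x * c x) := by ring
          _ = 0 := by rw [this, mul_zero]
      have h3 : 0 ≤ w x * g x := mul_nonneg (ho.wt.nn x) (hg x)
      linarith
    have hG0 : G = 0 := by
      rw [hG]
      refine Finset.sum_eq_zero fun x _ => ?_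
      rw [hz2 x, zero_mul]
    rw [hG0]
    have : 0 ≤ f * K := mul_nonneg hf hK0
    have h4 : 0 ≤ 2 * (L - dens E w) * f := mul_nonneg (by linarith) hf
    linarith
  · have h1 : -(K + 2 * (L - dens E w)) * (∑ x, w x * g x) ≤ 3 * s * G := by
      rw [hG, Finset.mul_sum, Finset.mul_sum]
      refine Finset.sum_le_sum fun x _ => ?_
      have := mul_le_mul_of_nonneg_left (key x) (mul_nonneg (ho.wt.nn x) (hg x))
      calc -(K + 2 * (L - dens E w)) * (w x * g x) = w x * g x * -(K + 2 * (L - dens E w)) := by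
            ring
        _ ≤ _ := this
        _ = _ := by ring
    have h2 : ∑ x, w x * g x ≤ f * s := by
      rw [hs, Finset.mul_sum]
      refine Finset.sum_le_sum fun x _ => ?_
      have := mul_le_mul_of_nonneg_left (hgc x) (ho.wt.nn x)
      linarith
    have h3 : (K + 2 * (L - dens E w)) * (∑ x, w x * g x) ≤
        (K + 2 * (L - dens E w)) * (f * s) := mul_le_mul_of_nonneg_left h2 (by linarith)
    have h4 : 0 ≤ s * (3 * G + f * (K + 2 * (L - dens E w))) := by nlinarith
    have h5 : 0 ≤ 3 * G + f * (K + 2 * (L - dens E w)) := by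
      by_contra hcon
      push Not at hcon
      have := mul_neg_of_pos_of_neg h hcon
      linarith
    nlinarith

end

end KF85
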